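import Pool.Agent.T2H31.PX.Stm

/-! # Package ANA (helper74): holomorphic continuation by partial summation -/

set_option autoImplicit false

namespace Pool.Agent.T2H31.PX

open MeasureTheory ProbabilityTheory Finset Filter Topology Pool.Agent.T2H31.RC

theorem T_ANA : P_ANA := by
  intro f a C ha hf hR
  set A : ℝ → ℂ := fun t => ∑ k ∈ Icc 1 ⌊t⌋₊, (f k : ℂ) with hA
  have hAn : ∀ t : ℝ, 0 ≤ t → ‖A t‖ ≤ |C| * t ^ a := by
    intro t ht
    have h1 : A t = ((∑ k ∈ Icc 1 ⌊t⌋₊, f k : ℝ) : ℂ) := by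
      rw [hA]; push_cast; rfl
    rw [h1, Complex.norm_real, Real.norm_eq_abs]
    calc |∑ k ∈ Icc 1 ⌊t⌋₊, f k| ≤ C * (⌊t⌋₊ : ℝ) ^ a := hR _
      _ ≤ |C| * (⌊t⌋₊ : ℝ) ^ a := by
          apply mul_le_mul_of_nonneg_right (le_abs_self C) (by positivity)
      _ ≤ |C| * t ^ a := by
          apply mul_le_mul_of_nonneg_left _ (abs_nonneg C)
          exact Real.rpow_le_rpow (Nat.cast_nonneg _) (Nat.floor_le ht) ha
  have h0 : ∀ t : ℝ, t < 1 → A t = 0 := by
    intro t ht
    have : ⌊t⌋₊ = 0 := Nat.floor_eq_zero.mpr ht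
    rw [hA]
    simp [this]
  have hmeas : Measurable A := by
    have h1 : Measurable (fun n : ℕ => ∑ k ∈ Icc 1 n, (f k : ℂ)) := measurable_from_top
    exact h1.comp Nat.measurable_floor
  have hloc : LocallyIntegrableOn A (Set.Ioi 0) := by
    have hg : LocallyIntegrableOn (fun t : ℝ => |C| * t ^ a) (Set.Ioi (0 : ℝ)) := by
      refine ContinuousOn.locallyIntegrableOn ?_ measurableSet_Ioi
      refine ContinuousOn.mul continuousOn_const ?_
      intro t ht
      exact (Real.continuousAt_rpow_const t a (Or.inl (ne_of_gt ht))).continuousWithinAt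
    intro x hx
    obtain ⟨U, hU, hUi⟩ := hg x hx
    refine ⟨U ∩ Set.Ioi 0, Filter.inter_mem hU self_mem_nhdsWithin, ?_⟩
    have h2 : IntegrableOn (fun t : ℝ => |C| * t ^ a) (U ∩ Set.Ioi 0) := hUi.mono_set Set.inter_subset_left
    refine Integrable.mono' (g := fun t : ℝ => ‖|C| * t ^ a‖) h2.norm hmeas.aestronglyMeasurable ?_
    have h3 : ∀ᵐ t ∂(volume.restrict (Set.Ioi (0 : ℝ))), ‖A t‖ ≤ ‖|C| * t ^ a‖ :=
      (ae_restrict_iff' measurableSet_Ioi).mpr (Eventually.of_forall fun t ht =>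
        (hAn t (le_of_lt ht)).trans (Real.le_norm_self _))
    exact ae_restrict_of_ae_restrict_of_subset Set.inter_subset_right h3
  refine ⟨fun s => s * mellin A (-s), ?_, ?_⟩
  · intro s hs
    have hs' : a < s.re := hs
    refine DifferentiableAt.differentiableWithinAt ?_
    refine differentiableAt_id.mul ?_
    have h1 : DifferentiableAt ℂ (mellin A) (-s) := by
      refine mellin_differentiableAt_of_isBigO_rpow (a := -a) (b := (-s).re - 1) hloc ?_ ?_ ?_ ?_
      · refine Asymptotics.IsBigO.of_bound |C| ?_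
        filter_upwards [eventually_ge_atTop (0 : ℝ)] with t ht
        rw [neg_neg, Real.norm_of_nonneg (Real.rpow_nonneg ht a)]
        exact hAn t ht
      · rw [Complex.neg_re]; linarith
      · refine Asymptotics.IsBigO.of_bound 1 ?_
        have : ∀ᶠ t : ℝ in 𝓝[>] 0, t < 1 := by
          refine nhdsWithin_le_nhds ?_
          exact Iio_mem_nhds one_pos
        filter_upwards [this] with t ht
        rw [h0 t ht, norm_zero]
        positivity
      · linarith
    exact h1.comp s differentiableAt_id.neg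
  · intro s hs
    have hO : (fun n : ℕ => ∑ k ∈ Icc 1 n, ‖((f k : ℝ) : ℂ)‖) =O[atTop] fun n : ℕ => (n : ℝ) ^ (1 : ℝ) := by
      refine Asymptotics.IsBigO.of_bound 1 (Eventually.of_forall fun n => ?_)
      rw [Real.rpow_one, one_mul, Real.norm_of_nonneg (Finset.sum_nonneg fun _ _ => norm_nonneg _),
        Real.norm_of_nonneg (Nat.cast_nonneg n)]
      calc ∑ k ∈ Icc 1 n, ‖((f k : ℝ) : ℂ)‖ ≤ ∑ k ∈ Icc 1 n, (1 : ℝ) := by
            refine Finset.sum_le_sum fun k _ => ?_
            rw [Complex.norm_real, Real.norm_eq_abs]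
            exact hf k
        _ = n := by simp
    have h1 := LSeries_eq_mul_integral' (fun n => ((f n : ℝ) : ℂ)) (r := 1) zero_le_one hs hO
    rw [h1]
    congr 1
    rw [mellin, ← integral_Ici_eq_integral_Ioi (f := fun t : ℝ => (∑ k ∈ Icc 1 ⌊t⌋₊, ((f k : ℝ) : ℂ)) *
      (t : ℂ) ^ (-(s + 1)))]
    symm
    rw [setIntegral_eq_of_subset_of_forall_diff_eq_zero measurableSet_Ioi
      (s := Set.Ici (1 : ℝ)) (fun t (ht : (1 : ℝ) ≤ t) => show (0 : ℝ) < t from lt_of_lt_of_le one_pos ht)]
    · refine setIntegral_congr_fun measurableSet_Ici fun t _ => ?_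
      simp only [smul_eq_mul]
      rw [mul_comm, show -s - 1 = -(s + 1) by ring]
    · intro t ht
      have : t < 1 := by
        have := ht.2
        simpa using this
      rw [h0 t this, smul_zero]

end Pool.Agent.T2H31.PX
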