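import Pool.Agent.T2H31.PX.Stm

/-! # CNV: the convolution of `mo x` with `1` -/

set_option autoImplicit false

namespace Pool.Agent.T2H31.PX

open MeasureTheory ProbabilityTheory Finset Filter Topology Pool.Agent.T2H31.RC

private lemma cnv_sqf {t : Finset ℕ} (ht : ∀ p ∈ t, p.Prime) : Squarefree (∏ p ∈ t, p) := by
  refine Finset.squarefree_prod_of_pairwise_isCoprime (fun p hp q hq hpq => ?_) (fun p hp => (ht p hp).squarefree)
  simp only [Function.onFun, ← Nat.coprime_iff_isRelPrime]
  exact (Nat.coprime_primes (ht p hp) (ht q hq)).2 hpq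

private lemma cnv_hh (x : ℕ → ℝ) {n : ℕ} (hn : n ≠ 0) : hh x n = ∏ p ∈ n.primeFactors, (1 + x p) := by
  classical
  rw [Finset.prod_one_add]
  unfold hh
  have e1 : ∑ d ∈ n.divisors, mo x d = ∑ d ∈ n.divisors.filter Squarefree, ∏ p ∈ d.primeFactors, x p := by
    rw [Finset.sum_filter]
    refine Finset.sum_congr rfl fun d _ => ?_
    unfold mo
    split_ifs <;> rfl
  rw [e1]
  refine Finset.sum_nbij' (fun d => d.primeFactors) (fun t => ∏ p ∈ t, p) ?_ ?_ ?_ ?_ ?_
  · intro d hd
    rw [Finset.mem_filter, Nat.mem_divisors] at hd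
    exact Finset.mem_powerset.2 (Nat.primeFactors_mono hd.1.1 hn)
  · intro t ht
    rw [Finset.mem_powerset] at ht
    rw [Finset.mem_filter, Nat.mem_divisors]
    refine ⟨⟨?_, hn⟩, cnv_sqf fun p hp => Nat.prime_of_mem_primeFactors (ht hp)⟩
    exact (Finset.prod_dvd_prod_of_subset _ _ _ ht).trans (Nat.prod_primeFactors_dvd n)
  · intro d hd
    rw [Finset.mem_filter] at hd
    exact Nat.prod_primeFactors_of_squarefree hd.2
  · intro t ht
    rw [Finset.mem_powerset] at ht
    exact Nat.primeFactors_prod fun p hp => Nat.prime_of_mem_primeFactors (ht hp)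
  · intro d _
    rfl

private lemma cnv_abs {x : ℕ → ℝ} (hx : IsSign x) (n : ℕ) : |mo x n| ≤ 1 := by
  unfold mo
  split_ifs
  · rw [Finset.abs_prod]
    apply le_of_eq
    apply Finset.prod_eq_one
    intro p _
    rcases hx p with h | h <;> rw [h] <;> simp
  · simp

theorem T_CNV : P_CNV := by
  classical
  intro x hx
  refine ⟨?_, ?_, ?_⟩
  · intro n
    rcases eq_or_ne n 0 with rfl | hn
    · simp [hh]
    · rw [cnv_hh x hn]
      refine Finset.prod_nonneg fun p _ => ?_
      rcases hx p with h | h <;> rw [h] <;> norm_num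
  · intro p hp
    rw [cnv_hh x hp.ne_zero, hp.primeFactors, Finset.prod_singleton]
  · intro s hs
    let f : ArithmeticFunction ℂ := ⟨fun n => (mo x n : ℂ), by simp [mo]⟩
    let ζ' : ArithmeticFunction ℂ := ((ArithmeticFunction.zeta : ArithmeticFunction ℕ) : ArithmeticFunction ℂ)
    have hf : LSeriesSummable (fun n => f n) s := by
      refine LSeriesSummable_of_bounded_of_one_lt_re (m := 1) (fun n _ => ?_) hs
      show ‖((mo x n : ℝ) : ℂ)‖ ≤ 1
      rw [Complex.norm_real]
      exact cnv_abs hx n
    have hz : LSeriesSummable (fun n => ζ' n) s := by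
      have h := ArithmeticFunction.LSeriesSummable_zeta_iff.2 hs
      simpa [ζ', ArithmeticFunction.natCoe_apply] using h
    have hzz : LSeries (fun n => ζ' n) s = riemannZeta s := by
      have h := ArithmeticFunction.LSeries_zeta_eq_riemannZeta hs
      simpa [ζ', ArithmeticFunction.natCoe_apply] using h
    have e : (fun n => (hh x n : ℂ)) = fun n => (f * ζ') n := by
      funext n
      have h1 : (f * ζ') n = ∑ i ∈ n.divisors, f i := ArithmeticFunction.coe_mul_zeta_apply
      rw [h1]
      unfold hh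
      push_cast
      rfl
    rw [e]
    refine ⟨ArithmeticFunction.LSeriesSummable_mul hf hz, ?_⟩
    have h2 := ArithmeticFunction.LSeries_mul' hf hz
    rw [h2, hzz, mul_comm]
    rfl

end Pool.Agent.T2H31.PX
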