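import Pool.Agent.T2H31.PX.Stm

/-! # EUL: the Euler product (upper bound) -/

set_option autoImplicit false

namespace Pool.Agent.T2H31.PX

open MeasureTheory ProbabilityTheory Finset Filter Topology Pool.Agent.T2H31.RC

namespace EUL

theorem mo_zero (x : ℕ → ℝ) : mo x 0 = 0 := by
  unfold mo
  rw [if_neg not_squarefree_zero]

theorem mo_one (x : ℕ → ℝ) : mo x 1 = 1 := by
  unfold mo
  rw [if_pos squarefree_one]
  simp

theorem mo_mul (x : ℕ → ℝ) {m n : ℕ} (h : Nat.Coprime m n) : mo x (m * n) = mo x m * mo x n := by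
  unfold mo
  by_cases hm : Squarefree m
  · by_cases hn : Squarefree n
    · rw [if_pos ((Nat.squarefree_mul h).2 ⟨hm, hn⟩), if_pos hm, if_pos hn, h.primeFactors_mul,
        Finset.prod_union h.disjoint_primeFactors]
    · rw [if_neg (fun h' => hn ((Nat.squarefree_mul h).1 h').2), if_neg hn, mul_zero]
  · rw [if_neg (fun h' => hm ((Nat.squarefree_mul h).1 h').1), if_neg hm, zero_mul]

theorem abs_mo_le {x : ℕ → ℝ} (hx : IsSign x) (n : ℕ) : |mo x n| ≤ 1 := by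
  unfold mo
  split_ifs
  · rw [Finset.abs_prod]
    refine Finset.prod_le_one (fun _ _ => abs_nonneg _) fun p _ => ?_
    rcases hx p with h | h <;> rw [h] <;> norm_num
  · simp

theorem mo_prime (x : ℕ → ℝ) {p : ℕ} (hp : p.Prime) : mo x p = x p := by
  unfold mo
  rw [if_pos hp.squarefree, hp.primeFactors, Finset.prod_singleton]

theorem mo_pow (x : ℕ → ℝ) {p : ℕ} (hp : p.Prime) {k : ℕ} (hk : 2 ≤ k) : mo x (p ^ k) = 0 := by
  unfold mo
  rw [if_neg]
  intro h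
  obtain ⟨j, rfl⟩ := Nat.exists_eq_add_of_le hk
  have h1 : p * p ∣ p ^ (2 + j) := ⟨p ^ j, by ring⟩
  exact hp.one_lt.ne' (Nat.isUnit_iff.1 (h p h1))

/-- the terms of the series -/
noncomputable def f (x : ℕ → ℝ) (σ : ℝ) (n : ℕ) : ℝ := mo x n * (n : ℝ) ^ (-σ)

theorem f_zero (x : ℕ → ℝ) (σ : ℝ) : f x σ 0 = 0 := by
  unfold f
  rw [mo_zero, zero_mul]

theorem f_one (x : ℕ → ℝ) (σ : ℝ) : f x σ 1 = 1 := by
  unfold f
  rw [mo_one]
  simp

theorem f_mul (x : ℕ → ℝ) (σ : ℝ) {m n : ℕ} (h : Nat.Coprime m n) :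
    f x σ (m * n) = f x σ m * f x σ n := by
  unfold f
  rw [mo_mul x h]
  push_cast
  rw [Real.mul_rpow (by positivity) (by positivity)]
  ring

theorem summable_rpow {σ : ℝ} (hσ : 1 < σ) : Summable (fun n : ℕ => (n : ℝ) ^ (-σ)) :=
  Real.summable_nat_rpow.2 (by linarith)

theorem norm_f_le {x : ℕ → ℝ} (hx : IsSign x) (σ : ℝ) (n : ℕ) : ‖f x σ n‖ ≤ (n : ℝ) ^ (-σ) := by
  unfold f
  rw [norm_mul, Real.norm_eq_abs, Real.norm_eq_abs, abs_of_nonneg (a := (n : ℝ) ^ (-σ)) (by positivity)]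
  calc |mo x n| * (n : ℝ) ^ (-σ) ≤ 1 * (n : ℝ) ^ (-σ) := by
        gcongr
        exact abs_mo_le hx n
    _ = _ := one_mul _

theorem summable_f {x : ℕ → ℝ} (hx : IsSign x) {σ : ℝ} (hσ : 1 < σ) : Summable (fun n => ‖f x σ n‖) :=
  Summable.of_nonneg_of_le (fun _ => norm_nonneg _) (norm_f_le hx σ) (summable_rpow hσ)

theorem local_factor (x : ℕ → ℝ) (σ : ℝ) (p : Nat.Primes) :
    ∑' e : ℕ, f x σ ((p : ℕ) ^ e) = 1 + x p * ((p : ℕ) : ℝ) ^ (-σ) := by
  rw [tsum_eq_sum (s := range 2)]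
  · rw [Finset.sum_range_succ, Finset.sum_range_one, pow_zero, pow_one, f_one]
    unfold f
    rw [mo_prime x p.2]
  · intro e he
    have h2 : 2 ≤ e := by
      simp only [Finset.mem_range] at he
      omega
    unfold f
    rw [mo_pow x p.2 h2, zero_mul]

theorem summable_T {x : ℕ → ℝ} (hx : IsSign x) {σ : ℝ} (hσ : 1 < σ) :
    Summable (fun p : Nat.Primes => x p * ((p : ℕ) : ℝ) ^ (-σ)) := by
  have h := (summable_rpow hσ).comp_injective (i := fun p : Nat.Primes => (p : ℕ)) Subtype.val_injective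
  refine Summable.of_norm_bounded h fun p => ?_
  rw [norm_mul, Real.norm_eq_abs, Real.norm_eq_abs]
  have h1 : |x p| = 1 := by rcases hx p with h | h <;> rw [h] <;> norm_num
  rw [h1, one_mul, abs_of_nonneg (by positivity)]
  rfl

theorem factor_nonneg {x : ℕ → ℝ} (hx : IsSign x) {σ : ℝ} (hσ : 1 < σ) (p : Nat.Primes) :
    0 ≤ 1 + x p * ((p : ℕ) : ℝ) ^ (-σ) := by
  have h1 : ((p : ℕ) : ℝ) ^ (-σ) ≤ 1 :=
    Real.rpow_le_one_of_one_le_of_nonpos (by exact_mod_cast p.2.one_le) (by linarith)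
  have h0 : 0 ≤ ((p : ℕ) : ℝ) ^ (-σ) := by positivity
  rcases hx p with h | h <;> rw [h] <;> linarith

theorem tsum_le {x : ℕ → ℝ} (hx : IsSign x) {σ : ℝ} (hσ : 1 < σ) :
    |∑' n, f x σ n| ≤ Real.exp (T x σ) := by
  have h := EulerProduct.eulerProduct_hasProd (f_one x σ) (fun h => f_mul x σ h) (summable_f hx hσ)
    (f_zero x σ)
  simp_rw [local_factor] at h
  have hT : HasSum (fun p : Nat.Primes => x p * ((p : ℕ) : ℝ) ^ (-σ)) (T x σ) := (summable_T hx hσ).hasSum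
  have h0 : 0 ≤ ∑' n, f x σ n := by
    refine ge_of_tendsto' h fun s => Finset.prod_nonneg fun p _ => factor_nonneg hx hσ p
  rw [abs_of_nonneg h0]
  refine le_of_tendsto_of_tendsto' h ((Real.continuous_exp.tendsto _).comp hT) fun s => ?_
  simp only [Function.comp_apply]
  rw [Real.exp_sum]
  refine Finset.prod_le_prod (fun p _ => factor_nonneg hx hσ p) fun p _ => ?_
  rw [add_comm]
  exact Real.add_one_le_exp _

theorem lseries_eq {x : ℕ → ℝ} (hx : IsSign x) {σ : ℝ} (hσ : 1 < σ) :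
    LSeries (fun n => (mo x n : ℂ)) (σ : ℂ) = ((∑' n, f x σ n : ℝ) : ℂ) := by
  unfold LSeries
  rw [Complex.ofReal_tsum]
  refine tsum_congr fun n => ?_
  rcases Nat.eq_zero_or_pos n with rfl | hn
  · rw [LSeries.term_zero, f_zero, Complex.ofReal_zero]
  · rw [LSeries.term_of_ne_zero hn.ne']
    unfold f
    push_cast
    rw [Complex.ofReal_cpow (by positivity)]
    push_cast
    rw [Complex.cpow_neg, div_eq_mul_inv]

end EUL

theorem T_EUL : P_EUL := by
  refine ⟨1, fun x hx σ hσ => ?_⟩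
  rw [one_mul, EUL.lseries_eq hx hσ, Complex.norm_real, Real.norm_eq_abs]
  exact EUL.tsum_le hx hσ

end Pool.Agent.T2H31.PX
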