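import Pool.Agent.T2H31.PX.Stm
import Pool.Agent.T2H31.RC.Stm

/-! # Package FAI: fair signs -/

set_option autoImplicit false

namespace Pool.Agent.T2H31.PX

open MeasureTheory ProbabilityTheory Polynomial Finset Filter Topology Pool.Agent.T2H31.RC

theorem T_FAI (hFAIRM : Pool.Agent.T2H31.RC.P_FAIRM) : P_FAI := by
  classical
  intro Ω _ P X hX
  have h1 : ∀ᵐ ω ∂P, ∀ m : ℕ, ∀ᶠ N : ℕ in atTop, ∀ (a : ℕ) (B D : Finset ℕ), 1 ≤ a → a ≤ N ^ 0 → B.Nonempty →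
      B.card ≤ 1 → D.card ≤ 1 → (∀ b ∈ B ∪ D, b ≤ N ^ 0) → ∀ w ∈ ({fun _ => 1} : Finset (ℕ → ℂ)), ∀ Q : ℝ[X],
      Q.natDegree ≤ 1 →
      ‖∑ n ∈ Icc 1 N, w n * ((∏ b ∈ B, mo (fun p => X p ω) (a * n + b)) *
        ∏ d ∈ D, mo (fun p => X p ω) (a * n + d) ^ 2 : ℝ) * ee (Q.eval (n : ℝ))‖ ≤
          (N : ℝ) ^ (1 / 2 + 1 / ((m : ℝ) + 1)) := by
    rw [ae_all_iff]
    intro m
    refine hFAIRM Ω P X hX 1 0 (fun _ => {fun _ => 1}) ?_ ?_ (1 / ((m : ℝ) + 1)) (by positivity)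
    · intro N w hw t
      rw [mem_singleton] at hw
      rw [hw]
      simp
    · filter_upwards with N
      simp
  filter_upwards [h1] with ω hω ε hε
  obtain ⟨m, hm⟩ := exists_nat_one_div_lt hε
  obtain ⟨N₀, hN₀⟩ := eventually_atTop.1 (hω m)
  have hmo : ∀ n, ‖(mo (fun p => X p ω) n : ℂ)‖ ≤ 1 := by
    intro n
    rw [Complex.norm_real, Real.norm_eq_abs]
    unfold mo
    split_ifs with h
    · rw [Finset.abs_prod]
      refine Finset.prod_le_one (fun _ _ => abs_nonneg _) fun p _ => ?_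
      rcases hX.val p ω with h1 | h1 <;> rw [h1] <;> simp
    · simp
  have hee : ∀ y : ℝ, ‖ee y‖ = 1 := by
    intro y
    unfold ee
    rw [show (2 * (Real.pi : ℂ) * (y : ℂ) * Complex.I) = ((2 * Real.pi * y : ℝ) : ℂ) * Complex.I by
      push_cast
      ring]
    exact Complex.norm_exp_ofReal_mul_I _
  refine ⟨N₀ + 1, fun R t _ => ?_⟩
  rcases Nat.eq_zero_or_pos R with hR0 | hR0
  · rw [hR0]
    unfold F
    simp only [Icc_eq_empty_of_lt zero_lt_one, sum_empty, norm_zero]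
    positivity
  have hR1 : (1 : ℝ) ≤ R := by exact_mod_cast hR0
  have hpow1 : (1 : ℝ) ≤ (R : ℝ) ^ (1 / 2 + ε) := Real.one_le_rpow hR1 (by positivity)
  by_cases hR : N₀ ≤ R
  · have h2 := hN₀ R hR 1 {0} ∅ le_rfl (by simp) (by simp) (by simp) (by simp) (by simp) (fun _ => 1)
      (by simp) (Polynomial.C t * Polynomial.X) ((natDegree_C_mul_le _ _).trans natDegree_X_le)
    have e1 : ∑ n ∈ Icc 1 R, (fun _ => (1 : ℂ)) n * ((∏ b ∈ ({0} : Finset ℕ), mo (fun p => X p ω) (1 * n + b)) *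
        ∏ d ∈ (∅ : Finset ℕ), mo (fun p => X p ω) (1 * n + d) ^ 2 : ℝ) *
          ee ((Polynomial.C t * Polynomial.X).eval (n : ℝ)) = F (fun p => X p ω) R t := by
      unfold F
      refine sum_congr rfl fun n _ => ?_
      rw [prod_singleton, prod_empty, mul_one, one_mul, one_mul, add_zero, eval_mul, eval_C, eval_X,
        mul_comm t]
    rw [e1] at h2
    refine h2.trans ?_
    have h3 : (R : ℝ) ^ (1 / 2 + 1 / ((m : ℝ) + 1)) ≤ (R : ℝ) ^ (1 / 2 + ε) :=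
      Real.rpow_le_rpow_of_exponent_le hR1 (by linarith)
    have h4 : (0 : ℝ) ≤ N₀ := Nat.cast_nonneg _
    nlinarith
  · push Not at hR
    have h2 : ‖F (fun p => X p ω) R t‖ ≤ R := by
      unfold F
      refine (norm_sum_le _ _).trans ?_
      calc ∑ n ∈ Icc 1 R, ‖(mo (fun p => X p ω) n : ℂ) * ee (n * t)‖ ≤ ∑ n ∈ Icc 1 R, (1 : ℝ) := by
            refine sum_le_sum fun n _ => ?_
            rw [norm_mul, hee, mul_one]
            exact hmo n
        _ = R := by simp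
    have h3 : (R : ℝ) ≤ N₀ + 1 := by
      have : (R : ℝ) ≤ N₀ := by exact_mod_cast hR.le
      linarith
    refine h2.trans ?_
    have h4 : (0 : ℝ) ≤ (N₀ : ℝ) + 1 := by positivity
    nlinarith

end Pool.Agent.T2H31.PX
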