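import Pool.Agent.T2H31.PX.Stm
import Pool.Agent.T2H31.RC.Asm2

/-! # Package KAP: the exponent of convergence of the perturbed primes -/

set_option autoImplicit false

namespace Pool.Agent.T2H31.PX

open MeasureTheory ProbabilityTheory Finset Filter Topology Pool.Agent.T2H31.RC

namespace KAPaux

lemma exp_bound {c : ℝ} (h0 : 0 ≤ c) (h1 : c ≤ 1) : c / 2 ≤ 1 - Real.exp (-c) := by
  have h2 : Real.exp (-c) ≤ 1 / (1 + c) := by
    rw [Real.exp_neg, one_div]
    apply inv_anti₀ (by linarith)
    linarith [Real.add_one_le_exp c]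
  have h3 : 1 / (1 + c) ≤ 1 - c / 2 := by
    rw [div_le_iff₀ (by linarith)]
    nlinarith
  linarith

/-- divergence -/
lemma diverge {Ω : Type} [MeasurableSpace Ω] (P : Measure Ω) (δ : ℕ → ℝ) (X : ℕ → Ω → ℝ) (hX : Noise P δ X)
    (hδ : ∀ p, 0 ≤ δ p ∧ δ p ≤ 1) (c : ℕ → ℝ) (hc : ∀ p, 0 ≤ c p) (hc1 : ∀ p : Nat.Primes, c p ≤ 1)
    (hs : ¬ Summable (fun p : Nat.Primes => δ p * c p)) :
    ∀ᵐ ω ∂P, ¬ Summable (fun p : Nat.Primes => open Classical in if X p ω = -1 then c p else 0) := by
  classical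
  have := hX.prob
  set Y : Nat.Primes → Ω → ℝ := fun p ω => c p * ((1 - X p ω) / 2) with hY
  have hYval : ∀ p ω, Y p ω = if X p ω = -1 then c p else 0 := by
    intro p ω
    rcases hX.val p ω with h | h
    · rw [hY]
      simp only [h]
      rw [if_neg (by norm_num)]
      ring
    · rw [hY]
      simp only [h, if_true]
      ring
  have hYm : ∀ p, Measurable (Y p) := by
    intro p
    have := hX.meas p
    exact ((measurable_const.sub this).div_const 2).const_mul _
  have hYnn : ∀ p ω, 0 ≤ Y p ω := by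
    intro p ω
    rw [hYval]
    split_ifs
    · exact hc p
    · exact le_rfl
  have hind : iIndepFun Y P := by
    have h1 : iIndepFun (fun (p : Nat.Primes) => X (p : ℕ)) P := hX.indep.precomp Subtype.val_injective
    exact h1.comp (fun (p : Nat.Primes) (x : ℝ) => c p * ((1 - x) / 2)) (fun p => by fun_prop)
  have hmeas : ∀ p : ℕ, MeasurableSet {ω | X p ω = -1} := fun p =>
    (hX.meas p) (measurableSet_singleton (-1))
  have hmgf : ∀ p : Nat.Primes, mgf (Y p) P (-1) ≤ Real.exp (-(1 / 2 * (δ p * c p))) := by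
    intro p
    have e1 : ∀ ω, Real.exp (-1 * Y p ω) =
        1 - Set.indicator {ω | X p ω = -1} (fun _ => 1 - Real.exp (-c p)) ω := by
      intro ω
      rw [hYval]
      by_cases h : X p ω = -1
      · rw [if_pos h, Set.indicator_of_mem (by exact h)]
        simp
      · rw [if_neg h, Set.indicator_of_notMem (by exact h)]
        simp
    have e2 : mgf (Y p) P (-1) = 1 - δ p * (1 - Real.exp (-c p)) := by
      unfold mgf
      rw [integral_congr_ae (Eventually.of_forall e1)]
      rw [integral_sub (integrable_const _) ((integrable_const _).indicator (hmeas p))]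
      rw [integral_indicator (hmeas p)]
      simp only [integral_const, probReal_univ, smul_eq_mul, mul_one, MeasurableSet.univ, measureReal_restrict_apply,
        Set.univ_inter]
      congr 1
      rw [measureReal_def, hX.neg, ENNReal.toReal_ofReal (hδ p).1]
    rw [e2]
    have h1 := exp_bound (hc p) (hc1 p)
    have h2 := (hδ p).1
    have h3 : 1 - δ p * (1 - Real.exp (-c p)) ≤ 1 - 1 / 2 * (δ p * c p) := by nlinarith
    have h4 := Real.add_one_le_exp (-(1 / 2 * (δ p * c p)))
    linarith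
  have hfs : ∀ (s : Finset Nat.Primes) (M : ℝ), P.real {ω | ∑ p ∈ s, Y p ω ≤ M} ≤
      Real.exp (M - 1 / 2 * ∑ p ∈ s, δ p * c p) := by
    intro s M
    have hint : Integrable (fun ω => Real.exp (-1 * (∑ p ∈ s, Y p) ω)) P := by
      refine Integrable.of_bound (C := 1) ?_ (Eventually.of_forall fun ω => ?_)
      · have : Measurable (∑ p ∈ s, Y p) := by
          have h0 : Measurable (fun ω => ∑ p ∈ s, Y p ω) := Finset.measurable_sum s fun p _ => hYm p
          have e0 : (∑ p ∈ s, Y p) = fun ω => ∑ p ∈ s, Y p ω := by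
            funext ω
            rw [Finset.sum_apply]
          rw [e0]
          exact h0
        exact (Real.measurable_exp.comp (this.const_mul (-1))).aestronglyMeasurable
      · rw [Real.norm_eq_abs, abs_of_pos (Real.exp_pos _)]
        apply Real.exp_le_one_iff.2
        rw [Finset.sum_apply]
        have := Finset.sum_nonneg fun p (_ : p ∈ s) => hYnn p ω
        linarith
    have h1 := measure_le_le_exp_mul_mgf (μ := P) (X := ∑ p ∈ s, Y p) M (by norm_num : (-1 : ℝ) ≤ 0) hint
    have h2 : mgf (∑ p ∈ s, Y p) P (-1) = ∏ p ∈ s, mgf (Y p) P (-1) := hind.mgf_sum hYm s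
    have h3 : ∏ p ∈ s, mgf (Y p) P (-1) ≤ ∏ p ∈ s, Real.exp (-(1 / 2 * (δ p * c p))) :=
      Finset.prod_le_prod (fun p _ => mgf_nonneg) fun p _ => hmgf p
    rw [← Real.exp_sum] at h3
    have h4 : ∑ p ∈ s, -(1 / 2 * (δ p * c p)) = -(1 / 2 * ∑ p ∈ s, δ p * c p) := by
      rw [Finset.sum_neg_distrib, Finset.mul_sum]
    rw [h4] at h3
    have h5 : P.real {ω | (∑ p ∈ s, Y p) ω ≤ M} = P.real {ω | ∑ p ∈ s, Y p ω ≤ M} := by
      congr 1
      ext ω
      simp [Finset.sum_apply]
    rw [← h5]
    calc P.real {ω | (∑ p ∈ s, Y p) ω ≤ M} ≤ Real.exp (- -1 * M) * mgf (∑ p ∈ s, Y p) P (-1) := h1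
      _ ≤ Real.exp (- -1 * M) * Real.exp (-(1 / 2 * ∑ p ∈ s, δ p * c p)) := by
          apply mul_le_mul_of_nonneg_left _ (Real.exp_nonneg _)
          rw [h2]
          exact h3
      _ = Real.exp (M - 1 / 2 * ∑ p ∈ s, δ p * c p) := by
          rw [← Real.exp_add]
          congr 1
          ring
  have hunb : ∀ K : ℝ, ∃ s : Finset Nat.Primes, K < ∑ p ∈ s, δ p * c p := by
    intro K
    by_contra hcon
    push Not at hcon
    apply hs
    exact summable_of_sum_le (fun p => mul_nonneg (hδ p).1 (hc p)) hcon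
  have hB : ∀ M : ℕ, P {ω | ∀ s : Finset Nat.Primes, ∑ p ∈ s, Y p ω ≤ M} = 0 := by
    intro M
    rw [← measureReal_eq_zero_iff]
    apply le_antisymm _ measureReal_nonneg
    apply le_of_forall_pos_le_add
    intro ε hε
    rw [zero_add]
    obtain ⟨s, hs'⟩ := hunb (2 * (M - Real.log ε))
    calc P.real {ω | ∀ s : Finset Nat.Primes, ∑ p ∈ s, Y p ω ≤ M} ≤ P.real {ω | ∑ p ∈ s, Y p ω ≤ M} :=
          measureReal_mono fun ω hω => hω s
      _ ≤ Real.exp (M - 1 / 2 * ∑ p ∈ s, δ p * c p) := hfs s M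
      _ ≤ Real.exp (Real.log ε) := by
          apply Real.exp_le_exp.2
          linarith
      _ = ε := Real.exp_log hε
  have hae : ∀ᵐ ω ∂P, ∀ M : ℕ, ¬ ∀ s : Finset Nat.Primes, ∑ p ∈ s, Y p ω ≤ M := by
    rw [ae_all_iff]
    intro M
    rw [ae_iff]
    simpa using hB M
  filter_upwards [hae] with ω hω hsum
  have hsum' : Summable (fun p => Y p ω) := by
    refine hsum.congr fun p => ?_
    rw [hYval]
  obtain ⟨M, hM⟩ := exists_nat_ge (∑' p, Y p ω)
  exact hω M fun s => (hsum'.sum_le_tsum s fun p _ => hYnn p ω).trans hM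

end KAPaux

open KAPaux in
theorem T_KAP : P_KAP := by
  classical
  intro Ω _ P δ X hX hδ
  have := hX.prob
  have key : ∀ᵐ ω ∂P, ∀ q : ℚ, 0 < q →
      (Summable (fun p : Nat.Primes => if X p ω = -1 then ((p : ℕ) : ℝ) ^ (-(q : ℝ)) else 0) ↔
        Summable (fun p : Nat.Primes => δ p * ((p : ℕ) : ℝ) ^ (-(q : ℝ)))) := by
    rw [ae_all_iff]
    intro q
    by_cases hq : 0 < q
    · have hq' : (0 : ℝ) < q := by exact_mod_cast hq
      by_cases hs : Summable (fun p : Nat.Primes => δ p * ((p : ℕ) : ℝ) ^ (-(q : ℝ)))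
      · have h1 := wsum P δ X hX (fun p => (p : ℝ) ^ (-(q : ℝ))) (fun p => Real.rpow_nonneg (Nat.cast_nonneg _) _) hs
        filter_upwards [h1] with ω hω _
        refine ⟨fun _ => hs, fun _ => ?_⟩
        refine hω.congr fun p => ?_
        rcases hX.val p ω with h | h
        · rw [h, if_pos rfl, if_neg (by norm_num)]
        · rw [h, if_neg (by norm_num), if_pos rfl]
      · have h1 := diverge P δ X hX hδ (fun p => (p : ℝ) ^ (-(q : ℝ))) (fun p => Real.rpow_nonneg (Nat.cast_nonneg _) _)
          (fun p => Real.rpow_le_one_of_one_le_of_nonpos (by exact_mod_cast p.2.one_lt.le) (by linarith)) hs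
        filter_upwards [h1] with ω hω _
        exact ⟨fun h => absurd h hω, fun h => absurd h hs⟩
    · exact Eventually.of_forall fun ω h => absurd h hq
  have hmono : ∀ (x y : ℝ), x ≤ y → ∀ p : Nat.Primes, ((p : ℕ) : ℝ) ^ (-y) ≤ ((p : ℕ) : ℝ) ^ (-x) := by
    intro x y hxy p
    exact Real.rpow_le_rpow_of_exponent_le (by exact_mod_cast p.2.one_lt.le) (by linarith)
  filter_upwards [key] with ω hω a ha
  constructor
  · intro h ε hε
    obtain ⟨q, hq1, hq2⟩ := exists_rat_btwn (show a < a + ε by linarith)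
    have hq0 : 0 < q := by
      have : (0 : ℝ) < q := lt_of_le_of_lt ha hq1
      exact_mod_cast this
    have h1 := h (q - a) (by linarith)
    have e1 : a + ((q : ℝ) - a) = q := by ring
    rw [e1] at h1
    have h2 := (hω q hq0).1 h1
    refine Summable.of_nonneg_of_le (fun p => mul_nonneg (hδ p).1 (Real.rpow_nonneg (Nat.cast_nonneg _) _)) (fun p => ?_) h2
    exact mul_le_mul_of_nonneg_left (hmono q (a + ε) hq2.le p) (hδ p).1
  · intro h ε hε
    obtain ⟨q, hq1, hq2⟩ := exists_rat_btwn (show a < a + ε by linarith)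
    have hq0 : 0 < q := by
      have : (0 : ℝ) < q := lt_of_le_of_lt ha hq1
      exact_mod_cast this
    have h1 := h (q - a) (by linarith)
    have e1 : a + ((q : ℝ) - a) = q := by ring
    rw [e1] at h1
    have h2 := (hω q hq0).2 h1
    refine Summable.of_nonneg_of_le (fun p => ?_) (fun p => ?_) h2
    · split_ifs
      · exact Real.rpow_nonneg (Nat.cast_nonneg _) _
      · exact le_rfl
    · split_ifs
      · exact hmono q (a + ε) hq2.le p
      · exact le_rfl

end Pool.Agent.T2H31.PX
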