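import Pool.Agent.T2H31.PX.Stm
import Pool.Agent.H353R2.R1

/-! Package LAN of the project PX of helper31 (MP_b6b996_nt), written by helper8: Landau's theorem;
it is the starting theorem `H353.landau_half`. -/

set_option autoImplicit false

namespace Pool.Agent.T2H31.PX

open MeasureTheory ProbabilityTheory Finset Filter Topology Pool.Agent.T2H31.RC

theorem T_LAN : P_LAN := by
  intro h hn a G ha ha1 hG hL σ hσ
  have h1 : LSeriesSummable (fun n => (h n : ℂ)) (σ : ℂ) :=
    H353.landau_half h hn G a ha1 hG (fun s hs => (hL s hs).1) (fun s hs => (hL s hs).2.symm) σ hσ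
  have h2 := h1.norm
  refine h2.congr fun n => ?_
  rcases Nat.eq_zero_or_pos n with rfl | hpos
  · have hσ0 : σ ≠ 0 := by linarith
    simp [Real.zero_rpow hσ0]
  · rw [LSeries.norm_term_eq, if_neg (by omega)]
    simp [abs_of_nonneg (hn n)]

end Pool.Agent.T2H31.PX
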