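import Pool.Agent.T2H31.PX.Stm

/-! # Package NEC: the exponent of convergence of the perturbed primes is at most the growth exponent -/

set_option autoImplicit false

namespace Pool.Agent.T2H31.PX

open MeasureTheory ProbabilityTheory Finset Filter Topology Pool.Agent.T2H31.RC

namespace NEC

theorem mo_le {x : ℕ → ℝ} (hx : IsSign x) (n : ℕ) : |mo x n| ≤ 1 := by
  unfold mo
  split_ifs with h
  · rw [Finset.abs_prod]
    refine le_of_eq (Finset.prod_eq_one fun p _ => ?_)
    rcases hx p with h | h <;> rw [h] <;> simp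
  · simp

/-- the entire function `(s - 1) ζ(s)` -/
noncomputable def zz1 : ℂ → ℂ := Function.update (fun s => (s - 1) * riemannZeta s) 1 1

theorem zz1_ne {s : ℂ} (hs : s ≠ 1) : zz1 s = (s - 1) * riemannZeta s := by
  unfold zz1
  rw [Function.update_of_ne hs]

theorem zz1_diff (U : Set ℂ) (hU : U ∈ 𝓝 (1 : ℂ)) : DifferentiableOn ℂ zz1 U := by
  rw [← Complex.differentiableOn_compl_singleton_and_continuousAt_iff hU]
  constructor
  · intro s hs
    have hs1 : s ≠ 1 := hs.2
    have h1 : DifferentiableAt ℂ (fun s : ℂ => (s - 1) * riemannZeta s) s :=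
      (differentiableAt_id.sub_const 1).mul (differentiableAt_riemannZeta hs1)
    refine (h1.congr_of_eventuallyEq ?_).differentiableWithinAt
    filter_upwards [isOpen_ne.mem_nhds hs1] with z hz
    exact zz1_ne hz
  · unfold zz1
    rw [continuousAt_update_same]
    exact riemannZeta_residue_one

end NEC

open NEC

theorem T_NEC (hANA : P_ANA) (hLAN : P_LAN) (hEUL : P_EUL) (hCNV : P_CNV) : P_NEC := by
  intro x hx hneg a ha0 ha1 hb ε hε
  obtain ⟨e, he0, he1, he2⟩ : ∃ e : ℝ, 0 < e ∧ e < ε ∧ a + e < 1 := by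
    refine ⟨min (ε / 2) ((1 - a) / 2), lt_min (by linarith) (by linarith), ?_, ?_⟩
    · exact lt_of_le_of_lt (min_le_left _ _) (by linarith)
    · have := min_le_right (ε / 2) ((1 - a) / 2)
      linarith
  obtain ⟨C, hC⟩ := hb e he0
  obtain ⟨D, hD, hDs⟩ := hANA (mo x) (a + e) C (by linarith) (mo_le hx) hC
  obtain ⟨C₁, hC₁⟩ := hEUL
  have hopen : IsOpen {s : ℂ | a + e < s.re} := isOpen_lt continuous_const Complex.continuous_re
  have h1U : (1 : ℂ) ∈ {s : ℂ | a + e < s.re} := by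
    simpa using he2
  have hU : {s : ℂ | a + e < s.re} ∈ 𝓝 (1 : ℂ) := hopen.mem_nhds h1U
  -- `D 1 = 0`
  have hD1 : D 1 = 0 := by
    by_contra hne
    have hpos : 0 < ‖D 1‖ := norm_pos_iff.2 hne
    have hc : ContinuousAt D 1 := (hD.continuousOn).continuousAt hU
    obtain ⟨r, hr, hrD⟩ := Metric.continuousAt_iff.1 hc (‖D 1‖ / 2) (by linarith)
    have hq : 0 < ‖D 1‖ / 2 / (|C₁| + 1) := by positivity
    obtain ⟨σ, hσ1, hσ2, hT⟩ := hneg (Real.log (‖D 1‖ / 2 / (|C₁| + 1))) (1 + r) (by linarith)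
    have h1 := hC₁ x hx σ hσ1
    rw [hDs (σ : ℂ) (by simpa using hσ1)] at h1
    have h2 : Real.exp (T x σ) < ‖D 1‖ / 2 / (|C₁| + 1) := by
      calc Real.exp (T x σ) < Real.exp (Real.log (‖D 1‖ / 2 / (|C₁| + 1))) := Real.exp_lt_exp.2 hT
        _ = _ := Real.exp_log hq
    have h3 : ‖D (σ : ℂ)‖ < ‖D 1‖ / 2 := by
      calc ‖D (σ : ℂ)‖ ≤ C₁ * Real.exp (T x σ) := h1
        _ ≤ |C₁| * Real.exp (T x σ) := mul_le_mul_of_nonneg_right (le_abs_self _) (Real.exp_pos _).le
        _ ≤ (|C₁| + 1) * Real.exp (T x σ) := by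
            have := Real.exp_pos (T x σ)
            nlinarith
        _ < (|C₁| + 1) * (‖D 1‖ / 2 / (|C₁| + 1)) := by
            refine mul_lt_mul_of_pos_left h2 (by positivity)
        _ = ‖D 1‖ / 2 := by field_simp
    have h4 : dist (D (σ : ℂ)) (D 1) < ‖D 1‖ / 2 := by
      refine hrD ?_
      rw [dist_eq_norm]
      have : ((σ : ℂ) - 1) = ((σ - 1 : ℝ) : ℂ) := by push_cast; ring
      rw [this, Complex.norm_real, Real.norm_eq_abs, abs_of_pos (by linarith)]
      linarith
    rw [dist_eq_norm] at h4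
    have h5 : ‖D 1‖ ≤ ‖D (σ : ℂ)‖ + ‖D (σ : ℂ) - D 1‖ := by
      have := norm_sub_le (D (σ : ℂ)) (D (σ : ℂ) - D 1)
      simpa using this
    linarith
  -- the quotient
  set K : ℂ → ℂ := dslope D 1 with hK
  have hKd : DifferentiableOn ℂ K {s : ℂ | a + e < s.re} := (Complex.differentiableOn_dslope hU).2 hD
  have hDK : ∀ s, D s = (s - 1) * K s := by
    intro s
    have := sub_smul_dslope D 1 s
    rw [hD1, sub_zero, smul_eq_mul] at this
    exact this.symm
  have hG : DifferentiableOn ℂ (fun s => zz1 s * K s) {s : ℂ | a + e < s.re} :=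
    (zz1_diff _ hU).mul hKd
  obtain ⟨hh0, hhp, hhs⟩ := hCNV x hx
  have hL := hLAN (hh x) hh0 (a + e) (fun s => zz1 s * K s) (by linarith) he2 hG (by
    intro s hs
    obtain ⟨h1, h2⟩ := hhs s hs
    refine ⟨h1, ?_⟩
    have hs1 : s ≠ 1 := by
      rintro rfl
      simp at hs
    rw [h2, hDs s hs, hDK s]
    simp only [zz1_ne hs1]
    ring) (a + ε) (by linarith)
  -- the primes
  have hp := hL.comp_injective (i := fun p : Nat.Primes => (p : ℕ)) Nat.Primes.coe_nat_injective
  have hp2 := hp.mul_left (1 / 2)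
  refine hp2.congr fun p => ?_
  have hpp : (0 : ℝ) < ((p : ℕ) : ℝ) := by exact_mod_cast p.2.pos
  simp only [Function.comp]
  rw [hhp p p.2]
  rcases hx (p : ℕ) with h | h
  · rw [if_pos h, h, Real.rpow_neg hpp.le]
    ring
  · rw [if_neg (by rw [h]; norm_num), h]
    ring

end Pool.Agent.T2H31.PX
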