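import Pool.Agent.T2H31.PX.Stm

/-! # RND: the sum over the primes of random signs is not bounded below near `1` -/

set_option autoImplicit false

namespace Pool.Agent.T2H31.PX

open MeasureTheory ProbabilityTheory Finset Filter Topology Pool.Agent.T2H31.RC

private lemma rn_sum {σ : ℝ} (h : 1 < σ) : Summable fun p : Nat.Primes => ((p : ℕ) : ℝ) ^ (-σ) :=
  Nat.Primes.summable_rpow.2 (by linarith)

/-- the sum of `p ^ (-σ)` is large near `1` -/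
private lemma rn_large (M σ₀ : ℝ) (h0 : 1 < σ₀) :
    ∃ σ : ℝ, 1 < σ ∧ σ < σ₀ ∧ M < ∑' p : Nat.Primes, ((p : ℕ) : ℝ) ^ (-σ) := by
  have h1 : ∃ u : Finset Nat.Primes, M < ∑ p ∈ u, (1 / ((p : ℕ) : ℝ)) := by
    by_contra hne
    push Not at hne
    exact Nat.Primes.not_summable_one_div (summable_of_sum_le (fun p => by positivity) hne)
  obtain ⟨u, hu⟩ := h1
  have hc : Tendsto (fun σ : ℝ => ∑ p ∈ u, ((p : ℕ) : ℝ) ^ (-σ)) (𝓝 1) (𝓝 (∑ p ∈ u, ((p : ℕ) : ℝ) ^ (-(1 : ℝ)))) := by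
    refine tendsto_finsetSum _ fun p _ => ?_
    have hp : (0 : ℝ) < ((p : ℕ) : ℝ) := by exact_mod_cast p.2.pos
    have : Continuous fun σ : ℝ => ((p : ℕ) : ℝ) ^ (-σ) :=
      (Real.continuous_const_rpow hp.ne').comp continuous_neg
    exact this.tendsto 1
  have e : ∑ p ∈ u, ((p : ℕ) : ℝ) ^ (-(1 : ℝ)) = ∑ p ∈ u, (1 / ((p : ℕ) : ℝ)) := by
    refine Finset.sum_congr rfl fun p _ => ?_
    rw [Real.rpow_neg_one, one_div]
  rw [e] at hc
  have h2 : ∀ᶠ σ in 𝓝[>] (1 : ℝ), M < ∑ p ∈ u, ((p : ℕ) : ℝ) ^ (-σ) :=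
    (hc.eventually (lt_mem_nhds hu)).filter_mono nhdsWithin_le_nhds
  have h3 : ∀ᶠ σ in 𝓝[>] (1 : ℝ), σ < σ₀ := by
    filter_upwards [Ioo_mem_nhdsGT h0] with σ hσ using hσ.2
  have h4 : ∀ᶠ σ in 𝓝[>] (1 : ℝ), 1 < σ := self_mem_nhdsWithin
  obtain ⟨σ, a, b, c⟩ := (h2.and (h3.and h4)).exists
  refine ⟨σ, c, b, a.trans_le ?_⟩
  exact (rn_sum c).sum_le_tsum u fun p _ => by positivity

private lemma rn_exp {Ω : Type} [MeasurableSpace Ω] {P : Measure Ω} {δ : ℕ → ℝ} {X : ℕ → Ω → ℝ}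
    (hX : Noise P δ X) (p : ℕ) (hp : 0 ≤ δ p) : ∫ ω, X p ω ∂P = 1 - 2 * δ p := by
  haveI := hX.prob
  have hA : MeasurableSet {ω | X p ω = -1} := hX.meas p (measurableSet_singleton _)
  have e : ∀ ω, X p ω = 1 - 2 * Set.indicator {ω | X p ω = -1} (fun _ => (1 : ℝ)) ω := by
    intro ω
    by_cases h : X p ω = -1
    · rw [Set.indicator_of_mem (show ω ∈ {ω | X p ω = -1} from h), h]
      norm_num
    · have h' : ω ∉ {ω | X p ω = -1} := h
      rw [Set.indicator_of_notMem h']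
      rcases hX.val p ω with h1 | h1
      · rw [h1]; norm_num
      · exact absurd h1 h
  rw [integral_congr_ae (Eventually.of_forall e), integral_sub (integrable_const _), integral_const_mul,
    integral_indicator_const _ hA]
  · simp only [integral_const, probReal_univ, smul_eq_mul, mul_one]
    rw [Measure.real, hX.neg p, ENNReal.toReal_ofReal hp]
  · exact ((integrable_const (1 : ℝ)).indicator hA).const_mul 2

private lemma rn_cheb {Ω : Type} [MeasurableSpace Ω] {P : Measure Ω} {δ : ℕ → ℝ} {X : ℕ → Ω → ℝ}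
    (hX : Noise P δ X) {η : ℝ} (hη : 0 < η) (hδ : ∀ p, 0 ≤ δ p ∧ δ p ≤ 1 / 2 - η) (C σ₀ : ℝ) (h0 : 1 < σ₀)
    (c : ℝ) (hc : 0 < c) :
    P {ω | ∀ σ : ℝ, 1 < σ → σ < σ₀ → C ≤ T (fun p => - X p ω) σ} ≤
      ENNReal.ofReal ((∑' p : Nat.Primes, ((p : ℕ) : ℝ) ^ (-(2 : ℝ))) / c ^ 2) := by
  haveI := hX.prob
  set M : ℝ := (c + 1 - C) / (2 * η) with hM
  obtain ⟨σ, s1, s2, s3⟩ := rn_large (M + 1) σ₀ h0
  have hS := rn_sum s1
  -- a finite set of primes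
  obtain ⟨s, hs⟩ : ∃ s : Finset Nat.Primes, (∑' p : Nat.Primes, ((p : ℕ) : ℝ) ^ (-σ)) - 1 <
      ∑ p ∈ s, ((p : ℕ) : ℝ) ^ (-σ) :=
    (hS.hasSum.eventually (lt_mem_nhds (sub_one_lt _))).exists
  have hMs : M ≤ ∑ p ∈ s, ((p : ℕ) : ℝ) ^ (-σ) := by linarith
  have hq : ∀ p : Nat.Primes, (0 : ℝ) ≤ ((p : ℕ) : ℝ) ^ (-σ) := fun p => by positivity
  have hXa : ∀ (p : ℕ) ω, |X p ω| = 1 := by
    intro p ω
    rcases hX.val p ω with h | h <;> rw [h] <;> simp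
  let Y : Nat.Primes → Ω → ℝ := fun p ω => - X p ω * ((p : ℕ) : ℝ) ^ (-σ)
  have hYm : ∀ p, Measurable (Y p) := fun p => ((hX.meas p).neg).mul_const _
  have hYa : ∀ p ω, |Y p ω| = ((p : ℕ) : ℝ) ^ (-σ) := by
    intro p ω
    show |(- X p ω * ((p : ℕ) : ℝ) ^ (-σ))| = _
    rw [abs_mul, abs_neg, hXa, one_mul, abs_of_nonneg (hq p)]
  have hYL : ∀ p, MemLp (Y p) 2 P := by
    intro p
    refine MemLp.of_bound (hYm p).aestronglyMeasurable (((p : ℕ) : ℝ) ^ (-σ)) (Eventually.of_forall fun ω => ?_)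
    rw [Real.norm_eq_abs, hYa]
  have hYi : Set.Pairwise (s : Set Nat.Primes) fun p q => IndepFun (Y p) (Y q) P := by
    intro p _ q _ hpq
    have h1 : IndepFun (X p) (X q) P := hX.indep.indepFun (fun h => hpq (Subtype.ext h))
    exact h1.comp (φ := fun z => - z * ((p : ℕ) : ℝ) ^ (-σ)) (ψ := fun z => - z * ((q : ℕ) : ℝ) ^ (-σ))
      (by fun_prop) (by fun_prop)
  have hV : variance (∑ p ∈ s, Y p) P ≤ ∑' p : Nat.Primes, ((p : ℕ) : ℝ) ^ (-(2 : ℝ)) := by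
    rw [IndepFun.variance_sum (fun p _ => hYL p) hYi]
    calc ∑ p ∈ s, variance (Y p) P ≤ ∑ p ∈ s, ((p : ℕ) : ℝ) ^ (-(2 : ℝ)) := by
          refine Finset.sum_le_sum fun p _ => ?_
          refine (variance_le_expectation_sq (hYm p).aestronglyMeasurable).trans ?_
          have e : ∀ ω, (Y p ^ 2) ω = (((p : ℕ) : ℝ) ^ (-σ)) ^ 2 := by
            intro ω
            rw [Pi.pow_apply, ← hYa p ω, sq_abs]
          rw [integral_congr_ae (Eventually.of_forall e)]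
          simp only [integral_const, probReal_univ, one_smul]
          have hp1 : (1 : ℝ) ≤ ((p : ℕ) : ℝ) := by exact_mod_cast p.2.one_lt.le
          rw [← Real.rpow_natCast, ← Real.rpow_mul (by linarith)]
          apply Real.rpow_le_rpow_of_exponent_le hp1
          push_cast
          linarith
      _ ≤ _ := (rn_sum (by norm_num : (1 : ℝ) < 2)).sum_le_tsum s fun p _ => by positivity
  have hYI : ∀ p, Integrable (Y p) P := fun p => (hYL p).integrable (by norm_num)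
  have hE : ∫ ω, (∑ p ∈ s, Y p) ω ∂P ≤ - (2 * η * M) := by
    have e1 : ∫ ω, (∑ p ∈ s, Y p) ω ∂P = ∑ p ∈ s, ∫ ω, Y p ω ∂P := by
      simp only [Finset.sum_apply]
      exact integral_finsetSum s fun p _ => hYI p
    rw [e1]
    have e2 : ∀ p : Nat.Primes, ∫ ω, Y p ω ∂P ≤ - (2 * η) * ((p : ℕ) : ℝ) ^ (-σ) := by
      intro p
      have e3 : ∫ ω, Y p ω ∂P = - (1 - 2 * δ p) * ((p : ℕ) : ℝ) ^ (-σ) := by
        show ∫ ω, - X p ω * ((p : ℕ) : ℝ) ^ (-σ) ∂P = _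
        rw [integral_mul_const, integral_neg, rn_exp hX p (hδ p).1]
      rw [e3]
      apply mul_le_mul_of_nonneg_right _ (hq p)
      have := (hδ p).2
      linarith
    calc ∑ p ∈ s, ∫ ω, Y p ω ∂P ≤ ∑ p ∈ s, - (2 * η) * ((p : ℕ) : ℝ) ^ (-σ) :=
          Finset.sum_le_sum fun p _ => e2 p
      _ = - (2 * η) * ∑ p ∈ s, ((p : ℕ) : ℝ) ^ (-σ) := by rw [Finset.mul_sum]
      _ ≤ _ := by nlinarith
  have hL : MemLp (∑ p ∈ s, Y p) 2 P := memLp_finsetSum' s fun p _ => hYL p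
  have hch := meas_ge_le_variance_div_sq hL hc
  refine le_trans (measure_mono ?_) (hch.trans (ENNReal.ofReal_le_ofReal
    (div_le_div_of_nonneg_right hV (by positivity))))
  intro ω hω
  have h1 : C ≤ T (fun p => - X p ω) σ := hω σ s1 s2
  show c ≤ |(∑ p ∈ s, Y p) ω - ∫ ω, (∑ p ∈ s, Y p) ω ∂P|
  have h2 : T (fun p => - X p ω) σ ≤ (∑ p ∈ s, Y p) ω + 1 := by
    have hYs : Summable fun p : Nat.Primes => Y p ω := by
      refine Summable.of_norm_bounded (g := fun p : Nat.Primes => ((p : ℕ) : ℝ) ^ (-σ)) hS fun p => ?_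
      rw [Real.norm_eq_abs, hYa]
    have h3 := (hS.sub hYs).sum_le_tsum s (fun p _ => by
      have h4 := hYa p ω
      have h5 := le_abs_self (Y p ω)
      show 0 ≤ ((p : ℕ) : ℝ) ^ (-σ) - Y p ω
      linarith)
    rw [hS.tsum_sub hYs, Finset.sum_sub_distrib] at h3
    have h4 : T (fun p => - X p ω) σ = ∑' p : Nat.Primes, Y p ω := rfl
    rw [h4, Finset.sum_apply]
    linarith
  have h6 : 2 * η * M = c + 1 - C := by
    rw [hM]
    field_simp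
  calc c ≤ (∑ p ∈ s, Y p) ω - ∫ ω, (∑ p ∈ s, Y p) ω ∂P := by linarith
    _ ≤ _ := le_abs_self _

private lemma rn_zero {Ω : Type} [MeasurableSpace Ω] {P : Measure Ω} {δ : ℕ → ℝ} {X : ℕ → Ω → ℝ}
    (hX : Noise P δ X) {η : ℝ} (hη : 0 < η) (hδ : ∀ p, 0 ≤ δ p ∧ δ p ≤ 1 / 2 - η) (C σ₀ : ℝ) (h0 : 1 < σ₀) :
    P {ω | ∀ σ : ℝ, 1 < σ → σ < σ₀ → C ≤ T (fun p => - X p ω) σ} = 0 := by
  set V : ℝ := ∑' p : Nat.Primes, ((p : ℕ) : ℝ) ^ (-(2 : ℝ))
  have h1 : Tendsto (fun n : ℕ => ENNReal.ofReal (V / ((n : ℝ) + 1) ^ 2)) atTop (𝓝 0) := by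
    have h2 : Tendsto (fun n : ℕ => V / ((n : ℝ) + 1) ^ 2) atTop (𝓝 0) := by
      apply Tendsto.div_atTop tendsto_const_nhds
      exact (tendsto_pow_atTop (by norm_num)).comp (tendsto_atTop_add_const_right _ _ tendsto_natCast_atTop_atTop)
    have h3 := ENNReal.tendsto_ofReal h2
    rwa [ENNReal.ofReal_zero] at h3
  have h4 := ge_of_tendsto' h1 fun n : ℕ => rn_cheb hX hη hδ C σ₀ h0 ((n : ℝ) + 1) (by positivity)
  exact le_antisymm h4 zero_le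

theorem T_RND : P_RND := by
  intro Ω _ P δ X hX η hη hδ
  have h : ∀ᵐ ω ∂P, ∀ k j : ℕ, ¬ ∀ σ : ℝ, 1 < σ → σ < 1 + 1 / ((j : ℝ) + 1) → -(k : ℝ) ≤ T (fun p => - X p ω) σ := by
    rw [ae_all_iff]
    intro k
    rw [ae_all_iff]
    intro j
    have h1 := rn_zero hX hη hδ (-(k : ℝ)) (1 + 1 / ((j : ℝ) + 1)) (by
      have : (0 : ℝ) < 1 / ((j : ℝ) + 1) := by positivity
      linarith)
    rw [ae_iff]
    simpa using h1
  filter_upwards [h] with ω hω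
  intro C σ₀ hσ
  obtain ⟨k, hk⟩ := exists_nat_ge (-C)
  obtain ⟨j, hj⟩ := exists_nat_one_div_lt (show (0 : ℝ) < σ₀ - 1 by linarith)
  have h2 := hω k j
  push Not at h2
  obtain ⟨σ, a, b, c⟩ := h2
  exact ⟨σ, a, by linarith, by linarith⟩

end Pool.Agent.T2H31.PX
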