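import Pool.Agent.T2H31.PX.Stm

/-! # Package STB (helper74): stability of the exponent -/

set_option autoImplicit false

namespace Pool.Agent.T2H31.PX

open MeasureTheory ProbabilityTheory Finset Filter Topology Pool.Agent.T2H31.RC

namespace PkgSTB

/-- the multiplicative function with the values `h p k` at the prime powers `p ^ k`, `k ≥ 1` -/
noncomputable def Mf (h : ℕ → ℕ → ℝ) (n : ℕ) : ℝ :=
  if n = 0 then 0 else ∏ p ∈ n.primeFactors, h p (n.factorization p)

theorem Mf_zero (h : ℕ → ℕ → ℝ) : Mf h 0 = 0 := by simp [Mf]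

theorem Mf_one (h : ℕ → ℕ → ℝ) : Mf h 1 = 1 := by simp [Mf]

theorem Mf_mul (h : ℕ → ℕ → ℝ) {m n : ℕ} (hmn : Nat.Coprime m n) :
    Mf h (m * n) = Mf h m * Mf h n := by
  by_cases hm : m = 0
  · subst hm; simp [Mf]
  by_cases hn : n = 0
  · subst hn; simp [Mf]
  unfold Mf
  rw [if_neg (mul_ne_zero hm hn), if_neg hm, if_neg hn, Nat.primeFactors_mul hm hn,
    Finset.prod_union hmn.disjoint_primeFactors]
  congr 1
  · refine Finset.prod_congr rfl fun p hp => ?_
    rw [Nat.factorization_eq_of_coprime_left hmn (by simpa using hp)]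
  · refine Finset.prod_congr rfl fun p hp => ?_
    rw [Nat.factorization_eq_of_coprime_right hmn (by simpa using hp)]

theorem Mf_prime_pow (h : ℕ → ℕ → ℝ) {p k : ℕ} (hp : p.Prime) (hk : k ≠ 0) :
    Mf h (p ^ k) = h p k := by
  unfold Mf
  rw [if_neg (pow_ne_zero _ hp.ne_zero), Nat.primeFactors_prime_pow hk hp, Finset.prod_singleton,
    hp.factorization_pow, Finsupp.single_eq_same]

/-- as an arithmetic function -/
noncomputable def Af (h : ℕ → ℕ → ℝ) : ArithmeticFunction ℝ := ⟨Mf h, Mf_zero h⟩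

theorem Af_apply (h : ℕ → ℕ → ℝ) (n : ℕ) : Af h n = Mf h n := rfl

theorem Af_mult (h : ℕ → ℕ → ℝ) : (Af h).IsMultiplicative :=
  ⟨Mf_one h, fun {_ _} hmn => Mf_mul h hmn⟩

/-- `mo x` -/
noncomputable def hm (x : ℕ → ℝ) (p k : ℕ) : ℝ := if k = 1 then x p else 0

theorem mo_eq (x : ℕ → ℝ) (n : ℕ) : mo x n = Mf (hm x) n := by
  classical
  unfold mo Mf
  by_cases hn : n = 0
  · subst hn
    rw [if_neg (by exact not_squarefree_zero), if_pos rfl]
  rw [if_neg hn]
  by_cases hs : Squarefree n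
  · rw [if_pos hs]
    refine Finset.prod_congr rfl fun p hp => ?_
    have h1 : n.factorization p ≤ 1 := (Nat.squarefree_iff_factorization_le_one hn).mp hs p
    have h2 : n.factorization p ≠ 0 := by
      have := Nat.support_factorization n
      rw [← this] at hp
      exact Finsupp.mem_support_iff.mp hp
    unfold hm
    rw [if_pos (by omega)]
  · rw [if_neg hs]
    have : ¬ ∀ p, n.factorization p ≤ 1 := fun h => hs ((Nat.squarefree_iff_factorization_le_one hn).mpr h)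
    push Not at this
    obtain ⟨p, hp⟩ := this
    symm
    refine Finset.prod_eq_zero (i := p) ?_ ?_
    · rw [← Nat.support_factorization, Finsupp.mem_support_iff]
      omega
    · unfold hm
      rw [if_neg (by omega)]

/-- the factor -/
noncomputable def hg (x x' : ℕ → ℝ) (p k : ℕ) : ℝ :=
  open Classical in if x p ≠ x' p then 2 * x' p ^ k else 0

/-- the value of a convolution with `mo x` at a prime power -/
theorem conv_pp (x : ℕ → ℝ) (g : ArithmeticFunction ℝ) {p : ℕ} (hp : p.Prime) (k : ℕ) :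
    (Af (hm x) * g) (p ^ (k + 1)) = g (p ^ (k + 1)) + x p * g (p ^ k) := by
  rw [ArithmeticFunction.mul_apply,
    Nat.sum_divisorsAntidiagonal (f := fun d e => Af (hm x) d * g e), Nat.divisors_prime_pow hp,
    Finset.sum_map]
  simp only [Function.Embedding.coeFn_mk]
  have h2 : Finset.range 2 ⊆ Finset.range (k + 1 + 1) := Finset.range_subset_range.mpr (by omega)
  rw [← Finset.sum_subset h2]
  · rw [Finset.sum_range_succ, Finset.sum_range_one, pow_zero, Nat.div_one, pow_one]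
    rw [Af_apply, Af_apply, Mf_one, one_mul]
    have e1 : Mf (hm x) p = x p := by
      have := Mf_prime_pow (hm x) hp (k := 1) one_ne_zero
      rw [pow_one] at this
      rw [this]
      unfold hm
      rw [if_pos rfl]
    have e2 : p ^ (k + 1) / p = p ^ k := by
      rw [pow_succ]
      exact Nat.mul_div_cancel _ hp.pos
    rw [e1, e2]
  · intro j _ hj
    rw [Finset.mem_range] at hj
    have e1 : Af (hm x) (p ^ j) = 0 := by
      rw [Af_apply, Mf_prime_pow _ hp (by omega)]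
      unfold hm
      rw [if_neg (by omega)]
    rw [e1, zero_mul]

theorem conv_eq (x x' : ℕ → ℝ) (hx : IsSign x) (hx' : IsSign x') :
    Af (hm x') = Af (hm x) * Af (hg x x') := by
  rw [ArithmeticFunction.IsMultiplicative.eq_iff_eq_on_prime_powers _ (Af_mult _) _
    ((Af_mult _).mul (Af_mult _))]
  intro p i hp
  rcases i with _ | k
  · rw [pow_zero, (Af_mult _).map_one, ((Af_mult _).mul (Af_mult _)).map_one]
  rw [conv_pp x _ hp k, Af_apply, Af_apply, Mf_prime_pow _ hp (by omega), Mf_prime_pow _ hp (by omega)]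
  have hsq : ∀ q, x' q * x' q = 1 := fun q => by rcases hx' q with h | h <;> rw [h] <;> norm_num
  rcases k with _ | k
  · rw [pow_zero, (Af_mult _).map_one]
    unfold hm hg
    rw [if_pos rfl]
    by_cases h : x p = x' p
    · rw [if_neg (by simpa using h), h]; ring
    · rw [if_pos h]
      have : x p = - x' p := by
        rcases hx p with h1 | h1 <;> rcases hx' p with h2 | h2 <;> rw [h1, h2] at h ⊢ <;> simp_all
      rw [this]; ring
  · rw [Af_apply, Mf_prime_pow _ hp (by omega)]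
    unfold hm hg
    rw [if_neg (by omega)]
    by_cases h : x p = x' p
    · rw [if_neg (by simpa using h), if_neg (by simpa using h)]; ring
    · rw [if_pos h, if_pos h]
      have : x p = - x' p := by
        rcases hx p with h1 | h1 <;> rcases hx' p with h2 | h2 <;> rw [h1, h2] at h ⊢ <;> simp_all
      rw [this]
      ring

/-- the exponential sum of the convolution -/
theorem F_conv (x x' : ℕ → ℝ) (hx : IsSign x) (hx' : IsSign x') (R : ℕ) (t : ℝ) :
    F x' R t = ∑ m ∈ Icc 1 R, (Mf (hg x x') m : ℂ) * F x (R / m) (m * t) := by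
  have h1 : ∀ n, (mo x' n : ℂ) = ∑ q ∈ n.divisorsAntidiagonal, (mo x q.1 : ℂ) * (Mf (hg x x') q.2 : ℂ) := by
    intro n
    have h2 : mo x' n = ∑ q ∈ n.divisorsAntidiagonal, mo x q.1 * Mf (hg x x') q.2 := by
      rw [mo_eq, ← Af_apply, conv_eq x x' hx hx', ArithmeticFunction.mul_apply]
      refine Finset.sum_congr rfl fun q _ => ?_
      rw [Af_apply, Af_apply, mo_eq]
    rw [h2]
    push_cast
    rfl
  unfold F
  simp_rw [h1, Finset.sum_mul, Finset.mul_sum]
  rw [Finset.sum_sigma', Finset.sum_sigma']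
  refine Finset.sum_nbij' (fun a => ⟨a.2.2, a.2.1⟩) (fun b => ⟨b.2 * b.1, (b.2, b.1)⟩) ?_ ?_ ?_ ?_ ?_
  · rintro ⟨n, d, m⟩ h
    simp only [Finset.mem_sigma, Finset.mem_Icc, Nat.mem_divisorsAntidiagonal] at h ⊢
    obtain ⟨⟨hn1, hn2⟩, hdm, hn0⟩ := h
    have hd : d ≠ 0 := fun h => hn0 (by rw [← hdm, h, zero_mul])
    have hm' : m ≠ 0 := fun h => hn0 (by rw [← hdm, h, mul_zero])
    refine ⟨⟨by omega, ?_⟩, by omega, ?_⟩
    · calc m ≤ d * m := Nat.le_mul_of_pos_left m (by omega)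
        _ = n := hdm
        _ ≤ R := hn2
    · rw [Nat.le_div_iff_mul_le (by omega), hdm]
      exact hn2
  · rintro ⟨m, d⟩ h
    simp only [Finset.mem_sigma, Finset.mem_Icc, Nat.mem_divisorsAntidiagonal] at h ⊢
    obtain ⟨⟨hm1, hm2⟩, hd1, hd2⟩ := h
    rw [Nat.le_div_iff_mul_le (by omega)] at hd2
    have : 0 < d * m := Nat.mul_pos (by omega) (by omega)
    exact ⟨⟨by omega, hd2⟩, trivial, by omega⟩
  · rintro ⟨n, d, m⟩ h
    simp only [Finset.mem_sigma, Finset.mem_Icc, Nat.mem_divisorsAntidiagonal] at h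
    obtain ⟨_, hdm, _⟩ := h
    subst hdm
    rfl
  · rintro ⟨m, d⟩ _
    rfl
  · rintro ⟨n, d, m⟩ h
    simp only [Finset.mem_sigma, Finset.mem_Icc, Nat.mem_divisorsAntidiagonal] at h
    obtain ⟨_, hdm, _⟩ := h
    subst hdm
    simp only
    have : ((d * m : ℕ) : ℝ) * t = (d : ℝ) * ((m : ℝ) * t) := by push_cast; ring
    rw [this]
    ring

/-- the weighted factor -/
noncomputable def G (x x' : ℕ → ℝ) (σ : ℝ) (n : ℕ) : ℝ := |Mf (hg x x') n| * (n : ℝ) ^ (-σ)

theorem G_nonneg (x x' : ℕ → ℝ) (σ : ℝ) (n : ℕ) : 0 ≤ G x x' σ n := by unfold G; positivity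

theorem G_one (x x' : ℕ → ℝ) (σ : ℝ) : G x x' σ 1 = 1 := by simp [G, Mf_one]

theorem G_mul (x x' : ℕ → ℝ) (σ : ℝ) {m n : ℕ} (h : Nat.Coprime m n) :
    G x x' σ (m * n) = G x x' σ m * G x x' σ n := by
  unfold G
  rw [Mf_mul _ h, abs_mul, Nat.cast_mul, Real.mul_rpow (Nat.cast_nonneg _) (Nat.cast_nonneg _)]
  ring

theorem G_pp (x x' : ℕ → ℝ) (hx' : IsSign x') (σ : ℝ) {p : ℕ} (hp : p.Prime) (k : ℕ) :
    G x x' σ (p ^ (k + 1)) =
      (open Classical in if x p ≠ x' p then 2 * (p : ℝ) ^ (-σ) else 0) * ((p : ℝ) ^ (-σ)) ^ k := by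
  unfold G
  rw [Mf_prime_pow _ hp (by omega)]
  have e : ((p ^ (k + 1) : ℕ) : ℝ) ^ (-σ) = ((p : ℝ) ^ (-σ)) ^ (k + 1) := by
    rw [Nat.cast_pow, ← Real.rpow_natCast, ← Real.rpow_natCast, ← Real.rpow_mul (Nat.cast_nonneg _),
      ← Real.rpow_mul (Nat.cast_nonneg _), mul_comm]
  rw [e]
  unfold hg
  by_cases h : x p = x' p
  · rw [if_neg (by simpa using h), if_neg (by simpa using h)]; simp
  · rw [if_pos h, if_pos h, abs_mul, abs_pow]
    have : |x' p| = 1 := by rcases hx' p with h | h <;> rw [h] <;> norm_num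
    rw [this, one_pow, abs_two, pow_succ]
    ring

theorem r_lt {σ : ℝ} (hσ : 0 < σ) {p : ℕ} (hp : p.Prime) :
    (p : ℝ) ^ (-σ) ≤ (2 : ℝ) ^ (-σ) ∧ (2 : ℝ) ^ (-σ) < 1 := by
  constructor
  · exact Real.rpow_le_rpow_of_nonpos (by norm_num) (by exact_mod_cast hp.two_le) (by linarith)
  · exact Real.rpow_lt_one_of_one_lt_of_neg (by norm_num) (by linarith)

theorem G_summable (x x' : ℕ → ℝ) (hx' : IsSign x') {σ : ℝ} (hσ : 0 < σ) {p : ℕ} (hp : p.Prime) :
    Summable (fun n : ℕ => G x x' σ (p ^ n)) := by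
  rw [← summable_nat_add_iff 1]
  simp_rw [G_pp x x' hx' σ hp]
  refine Summable.mul_left _ (summable_geometric_of_lt_one (by positivity) ?_)
  exact lt_of_le_of_lt (r_lt hσ hp).1 (r_lt hσ hp).2

theorem G_tsum (x x' : ℕ → ℝ) (hx' : IsSign x') {σ : ℝ} (hσ : 0 < σ) {p : ℕ} (hp : p.Prime) :
    ∑' n : ℕ, G x x' σ (p ^ n) ≤ Real.exp (2 / (1 - (2 : ℝ) ^ (-σ)) *
      (open Classical in if x p ≠ x' p then (p : ℝ) ^ (-σ) else 0)) := by
  have h1 := (G_summable x x' hx' hσ hp).tsum_eq_zero_add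
  have hr0 : 0 ≤ (p : ℝ) ^ (-σ) := by positivity
  have hr1 : (p : ℝ) ^ (-σ) < 1 := lt_of_le_of_lt (r_lt hσ hp).1 (r_lt hσ hp).2
  simp_rw [G_pp x x' hx' σ hp] at h1
  rw [tsum_mul_left, tsum_geometric_of_lt_one hr0 hr1, pow_zero, G_one] at h1
  rw [h1]
  refine le_trans ?_ (Real.add_one_le_exp _)
  rw [add_comm]
  refine add_le_add ?_ le_rfl
  split_ifs with h
  · have h3 : (1 - (p : ℝ) ^ (-σ))⁻¹ ≤ (1 - (2 : ℝ) ^ (-σ))⁻¹ := by
      apply inv_anti₀
      · linarith [(r_lt hσ hp).2]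
      · linarith [(r_lt hσ hp).1]
    calc 2 * (p : ℝ) ^ (-σ) * (1 - (p : ℝ) ^ (-σ))⁻¹
        ≤ 2 * (p : ℝ) ^ (-σ) * (1 - (2 : ℝ) ^ (-σ))⁻¹ := by
          apply mul_le_mul_of_nonneg_left h3 (by positivity)
      _ = 2 / (1 - (2 : ℝ) ^ (-σ)) * (p : ℝ) ^ (-σ) := by
          rw [div_eq_mul_inv]; ring
  · simp

theorem tsle (f : Nat.Primes → ℝ) (s : Finset Nat.Primes) (h : ∀ p, 0 ≤ f p) (hs : Summable f) :
    ∑ p ∈ s, f p ≤ ∑' p, f p :=
  sum_le_hasSum _ (fun p _ => h p) hs.hasSum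

/-- the partial sums are bounded -/
theorem G_bound (x x' : ℕ → ℝ) (hx' : IsSign x') {σ : ℝ} (hσ : 0 < σ)
    (hs : Summable (fun p : Nat.Primes => open Classical in
      if x p ≠ x' p then ((p : ℕ) : ℝ) ^ (-σ) else 0)) :
    ∃ B : ℝ, 0 ≤ B ∧ ∀ R : ℕ, ∑ m ∈ Icc 1 R, G x x' σ m ≤ B := by
  classical
  set c : ℝ := 2 / (1 - (2 : ℝ) ^ (-σ)) with hc
  have hc0 : 0 ≤ c := by
    have := (r_lt hσ Nat.prime_two).2
    have : 0 < 1 - (2 : ℝ) ^ (-σ) := by linarith
    positivity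
  refine ⟨Real.exp (c * ∑' p : Nat.Primes, (if x p ≠ x' p then ((p : ℕ) : ℝ) ^ (-σ) else 0)),
    (Real.exp_pos _).le, fun R => ?_⟩
  have hsum : ∀ {p : ℕ}, p.Prime → Summable (fun n : ℕ => ‖G x x' σ (p ^ n)‖) := by
    intro p hp
    simp_rw [Real.norm_of_nonneg (G_nonneg x x' σ _)]
    exact G_summable x x' hx' hσ hp
  have h1 := EulerProduct.summable_and_hasSum_smoothNumbers_prod_primesBelow_tsum
    (f := G x x' σ) (G_one x x' σ) (fun {m n} h => G_mul x x' σ h) hsum (R + 1)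
  calc ∑ m ∈ Icc 1 R, G x x' σ m ≤ ∏ p ∈ (R + 1).primesBelow, ∑' n : ℕ, G x x' σ (p ^ n) := by
        have hmem : ∀ m ∈ Icc 1 R, m ∈ (R + 1).smoothNumbers := by
          intro m hm
          rw [Finset.mem_Icc] at hm
          exact Nat.mem_smoothNumbers_of_lt (by omega) (by omega)
        have h2 := (hasSum_subtype_iff_indicator (f := G x x' σ)
          (s := (R + 1).smoothNumbers)).mp h1.2
        have h3 := sum_le_hasSum (Icc 1 R) (fun m _ => Set.indicator_nonneg
          (fun m _ => G_nonneg x x' σ m) m) h2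
        refine le_trans (le_of_eq ?_) h3
        refine Finset.sum_congr rfl fun m hm => ?_
        rw [Set.indicator_of_mem (hmem m hm)]
    _ ≤ ∏ p ∈ (R + 1).primesBelow, Real.exp (c * (if x p ≠ x' p then (p : ℝ) ^ (-σ) else 0)) := by
        refine Finset.prod_le_prod (fun p _ => tsum_nonneg fun n => G_nonneg x x' σ _) fun p hp => ?_
        exact G_tsum x x' hx' hσ (Nat.prime_of_mem_primesBelow hp)
    _ = Real.exp (c * ∑ p ∈ (R + 1).primesBelow, (if x p ≠ x' p then (p : ℝ) ^ (-σ) else 0)) := by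
        rw [← Real.exp_sum, Finset.mul_sum]
    _ ≤ _ := by
        rw [Real.exp_le_exp]
        refine mul_le_mul_of_nonneg_left ?_ hc0
        have h4 : ∑ p ∈ (R + 1).primesBelow, (if x p ≠ x' p then (p : ℝ) ^ (-σ) else 0) =
            ∑ p ∈ (R + 1).primesBelow.attach.image (fun p =>
              (⟨p.1, Nat.prime_of_mem_primesBelow p.2⟩ : Nat.Primes)),
              (if x p ≠ x' p then ((p : ℕ) : ℝ) ^ (-σ) else 0) := by
          rw [Finset.sum_image]
          · exact (Finset.sum_attach (R + 1).primesBelow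
              (fun p => if x p ≠ x' p then (p : ℝ) ^ (-σ) else 0)).symm
          · intro a _ b _ hab
            have : a.1 = b.1 := congrArg (fun q : Nat.Primes => (q : ℕ)) hab
            exact Subtype.ext this
        rw [h4]
        have hs' : Summable (fun p : Nat.Primes =>
            if x p ≠ x' p then ((p : ℕ) : ℝ) ^ (-σ) else 0) :=
          (summable_congr fun p => by by_cases h : x p = x' p <;> simp [h]).mpr hs
        exact tsle _ _ (fun p => by split_ifs <;> positivity) hs'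

end PkgSTB

open PkgSTB in
theorem T_STB : P_STB := by
  intro S hS x x' hx hx' a ha hK hB ε hε
  obtain ⟨C, hC⟩ := hB ε hε
  have hσ : 0 < a + ε := by linarith
  obtain ⟨B, hB0, hBR⟩ := G_bound x x' hx' hσ
    ((summable_congr fun p => by by_cases h : x p = x' p <;> simp [h]).mpr (hK ε hε))
  refine ⟨|C| * B, fun R t ht => ?_⟩
  rw [F_conv x x' hx hx']
  calc ‖∑ m ∈ Icc 1 R, (Mf (hg x x') m : ℂ) * F x (R / m) (m * t)‖
      ≤ ∑ m ∈ Icc 1 R, ‖(Mf (hg x x') m : ℂ) * F x (R / m) (m * t)‖ := norm_sum_le _ _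
    _ ≤ ∑ m ∈ Icc 1 R, |C| * (R : ℝ) ^ (a + ε) * G x x' (a + ε) m := by
        refine Finset.sum_le_sum fun m hm => ?_
        rw [Finset.mem_Icc] at hm
        have hm0 : (0 : ℝ) < m := by exact_mod_cast hm.1
        rw [norm_mul, Complex.norm_real, Real.norm_eq_abs]
        have h1 : ‖F x (R / m) (m * t)‖ ≤ |C| * ((R : ℝ) / m) ^ (a + ε) := by
          calc ‖F x (R / m) (m * t)‖ ≤ C * ((R / m : ℕ) : ℝ) ^ (a + ε) := hC _ _ (hS t ht m)
            _ ≤ |C| * ((R / m : ℕ) : ℝ) ^ (a + ε) :=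
                mul_le_mul_of_nonneg_right (le_abs_self C) (by positivity)
            _ ≤ |C| * ((R : ℝ) / m) ^ (a + ε) := by
                refine mul_le_mul_of_nonneg_left ?_ (abs_nonneg C)
                exact Real.rpow_le_rpow (by positivity) Nat.cast_div_le hσ.le
        calc |Mf (hg x x') m| * ‖F x (R / m) (m * t)‖
            ≤ |Mf (hg x x') m| * (|C| * ((R : ℝ) / m) ^ (a + ε)) :=
              mul_le_mul_of_nonneg_left h1 (abs_nonneg _)
          _ = |C| * (R : ℝ) ^ (a + ε) * G x x' (a + ε) m := by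
              unfold G
              rw [Real.div_rpow (by positivity) hm0.le, Real.rpow_neg hm0.le]
              ring
    _ = |C| * (R : ℝ) ^ (a + ε) * ∑ m ∈ Icc 1 R, G x x' (a + ε) m := by rw [Finset.mul_sum]
    _ ≤ |C| * (R : ℝ) ^ (a + ε) * B := mul_le_mul_of_nonneg_left (hBR R) (by positivity)
    _ = |C| * B * (R : ℝ) ^ (a + ε) := by ring

end Pool.Agent.T2H31.PX
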