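import Pool.Agent.T2H31.PX.Stm
import Pool.Agent.T2H31.RC.Asm

/-! # Perturbations of the Moebius function and exponential sums: assembly -/

set_option autoImplicit false

namespace Pool.Agent.T2H31.PX

open MeasureTheory ProbabilityTheory Finset Filter Topology Pool.Agent.T2H31.RC

/-- sets of frequencies which are closed under multiplication by natural numbers -/
def Closed (S : Set ℝ) : Prop := S.Nonempty ∧ ∀ t ∈ S, ∀ m : ℕ, (m : ℝ) * t ∈ S

theorem F_zero (x : ℕ → ℝ) (R : ℕ) : F x R 0 = ((∑ n ∈ Icc 1 R, mo x n : ℝ) : ℂ) := by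
  unfold F
  push_cast
  refine sum_congr rfl fun n _ => ?_
  rw [mul_zero]
  unfold ee
  simp

theorem main (hSTB : P_STB) (hNEC : P_NEC) (S : Set ℝ) (hS : Closed S) (x : ℕ → ℝ) (hx : IsSign x)
    (hneg : Neg x) (a : ℝ) (ha : 0 ≤ a) (ha1 : a < 1) :
    Bnd S x a ↔ Bnd S (fun _ => -1) a ∧ Kap (fun p => x p = 1) a := by
  have hm1 : IsSign (fun _ => (-1 : ℝ)) := fun _ => Or.inr rfl
  have e1 : (fun p => x p ≠ (fun _ : ℕ => (-1 : ℝ)) p) = fun p => x p = 1 := by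
    funext p
    rcases hx p with h | h <;> simp [h] <;> norm_num
  have e2 : (fun p => (fun _ : ℕ => (-1 : ℝ)) p ≠ x p) = fun p => x p = 1 := by
    funext p
    rcases hx p with h | h <;> simp [h] <;> norm_num
  constructor
  · intro h
    obtain ⟨t₀, ht₀⟩ := hS.1
    have h0 : (0 : ℝ) ∈ S := by
      have := hS.2 t₀ ht₀ 0
      simpa using this
    have hK : Kap (fun p => x p = 1) a := by
      refine hNEC x hx hneg a ha ha1 fun ε hε => ?_
      obtain ⟨C, hC⟩ := h ε hε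
      refine ⟨C, fun R => ?_⟩
      have h1 := hC R 0 h0
      rw [F_zero, Complex.norm_real] at h1
      exact h1
    refine ⟨?_, hK⟩
    refine hSTB S hS.2 x (fun _ => -1) hx hm1 a ha ?_ h
    rw [e1]
    exact hK
  · rintro ⟨h1, h2⟩
    refine hSTB S hS.2 (fun _ => -1) x hm1 hx a ha ?_ h1
    rw [e2]
    exact h2

theorem noise (hSTB : P_STB) (hNEC : P_NEC) (hRND : P_RND) (hKAP : P_KAP) (Ω : Type) [MeasurableSpace Ω]
    (P : Measure Ω) (δ : ℕ → ℝ) (X : ℕ → Ω → ℝ) (hX : Noise P δ X) (η : ℝ) (hη : 0 < η)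
    (hδ : ∀ p, 0 ≤ δ p ∧ δ p ≤ 1 / 2 - η) :
    ∀ᵐ ω ∂P, ∀ S : Set ℝ, Closed S → ∀ a : ℝ, 0 ≤ a → a < 1 →
      (Bnd S (fun p => - X p ω) a ↔ Bnd S (fun _ => -1) a ∧
        ∀ ε : ℝ, 0 < ε → Summable (fun p : Nat.Primes => δ p * ((p : ℕ) : ℝ) ^ (-(a + ε)))) := by
  filter_upwards [hRND Ω P δ X hX η hη hδ, hKAP Ω P δ X hX (fun p => ⟨(hδ p).1, (hδ p).2.trans (by linarith)⟩)]
    with ω h1 h2 S hS a ha ha1
  have hx : IsSign (fun p => - X p ω) := by
    intro p
    rcases hX.val p ω with h | h <;> simp [h]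
  rw [main hSTB hNEC S hS _ hx h1 a ha ha1, ← h2 a ha]
  have e : (fun p => - X p ω = 1) = fun p => X p ω = -1 := by
    funext p
    rw [neg_eq_iff_eq_neg]
  rw [e]

theorem summ_iff (c a : ℝ) : (∀ ε : ℝ, 0 < ε → Summable (fun p : Nat.Primes =>
    (((p : ℕ) : ℝ) ^ (-c) / 3) * ((p : ℕ) : ℝ) ^ (-(a + ε)))) ↔ 1 - c ≤ a := by
  have key : ∀ ε : ℝ, (Summable (fun p : Nat.Primes =>
      (((p : ℕ) : ℝ) ^ (-c) / 3) * ((p : ℕ) : ℝ) ^ (-(a + ε)))) ↔ 1 < c + a + ε := by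
    intro ε
    have e : (fun p : Nat.Primes => (((p : ℕ) : ℝ) ^ (-c) / 3) * ((p : ℕ) : ℝ) ^ (-(a + ε))) =
        fun p : Nat.Primes => (1 / 3) * ((p : ℕ) : ℝ) ^ (-(c + a + ε)) := by
      funext p
      have hp : (0 : ℝ) < ((p : ℕ) : ℝ) := by exact_mod_cast p.2.pos
      rw [show -(c + a + ε) = -c + -(a + ε) by ring, Real.rpow_add hp]
      ring
    rw [e, summable_mul_left_iff (by norm_num), Nat.Primes.summable_rpow]
    constructor <;> intro h <;> linarith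
  constructor
  · intro h
    refine le_of_forall_pos_le_add fun ε hε => ?_
    have := (key ε).1 (h ε hε)
    linarith
  · intro h ε hε
    rw [key]
    linarith

theorem power (hSTB : P_STB) (hNEC : P_NEC) (hRND : P_RND) (hKAP : P_KAP) (Ω : Type) [MeasurableSpace Ω]
    (P : Measure Ω) (c : ℝ) (hc : 0 ≤ c) (X : ℕ → Ω → ℝ) (hX : Noise P (fun p => (p : ℝ) ^ (-c) / 3) X) :
    ∀ᵐ ω ∂P, ∀ S : Set ℝ, Closed S → ∀ a : ℝ, 0 ≤ a → a < 1 →
      (Bnd S (fun p => - X p ω) a ↔ Bnd S (fun _ => -1) a ∧ 1 - c ≤ a) := by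
  have hδ : ∀ p : ℕ, 0 ≤ (p : ℝ) ^ (-c) / 3 ∧ (p : ℝ) ^ (-c) / 3 ≤ 1 / 2 - 1 / 6 := by
    intro p
    have h0 : (0 : ℝ) ≤ (p : ℝ) ^ (-c) := Real.rpow_nonneg (Nat.cast_nonneg _) _
    have h1 : (p : ℝ) ^ (-c) ≤ 1 := by
      rcases Nat.eq_zero_or_pos p with h | h
      · rw [h, Nat.cast_zero]
        rcases hc.eq_or_lt with h2 | h2
        · rw [← h2]
          simp
        · rw [Real.zero_rpow (by linarith)]
          exact zero_le_one
      · exact Real.rpow_le_one_of_one_le_of_nonpos (by exact_mod_cast h) (by linarith)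
    constructor
    · positivity
    · linarith
  filter_upwards [noise hSTB hNEC hRND hKAP Ω P _ X hX (1 / 6) (by norm_num) hδ] with ω h S hS a ha ha1
  rw [h S hS a ha ha1, summ_iff c a]

theorem fair (hFAI : P_FAI) (Ω : Type) [MeasurableSpace Ω] (P : Measure Ω) (X : ℕ → Ω → ℝ)
    (hX : Noise P (fun _ => 1 / 2) X) :
    ∀ᵐ ω ∂P, Bnd Set.univ (fun p => X p ω) (1 / 2) ∧ Bnd Set.univ (fun p => - X p ω) (1 / 2) := by
  have hP := hX.prob
  have hX' : Noise P (fun _ => 1 / 2) (fun p ω => - X p ω) := by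
    refine ⟨hX.prob, fun p => (hX.meas p).neg, ?_, ?_, ?_⟩
    · exact hX.indep.comp (fun _ => fun y : ℝ => -y) (fun _ => measurable_neg)
    · intro p ω
      rcases hX.val p ω with h | h <;> simp [h]
    · intro p
      have e : {ω | - X p ω = -1} = {ω | X p ω = -1}ᶜ := by
        ext ω
        simp only [Set.mem_setOf_eq, Set.mem_compl_iff]
        rcases hX.val p ω with h | h <;> simp [h] <;> norm_num
      have hm : MeasurableSet {ω | X p ω = -1} := (hX.meas p) (measurableSet_singleton (-1))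
      rw [e, measure_compl hm (measure_ne_top _ _), hX.neg, measure_univ, ← ENNReal.ofReal_one,
        ← ENNReal.ofReal_sub _ (by norm_num)]
      norm_num
  filter_upwards [hFAI Ω P X hX, hFAI Ω P _ hX'] with ω h1 h2
  exact ⟨h1, h2⟩

end Pool.Agent.T2H31.PX
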