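import Pool.Agent.T2H31.RC.Defs

/-! # Perturbations of the Moebius function and exponential sums: definitions

`mo x`, `ee`, `IsSign`, `Noise` are in `Pool/Agent/T2H31/RC/Defs.lean`. -/

set_option autoImplicit false

namespace Pool.Agent.T2H31.PX

open MeasureTheory ProbabilityTheory Finset Filter Topology Pool.Agent.T2H31.RC

/-- the exponential sum `∑_{n ≤ R} mo x n e(n t)` -/
noncomputable def F (x : ℕ → ℝ) (R : ℕ) (t : ℝ) : ℂ := ∑ n ∈ Icc 1 R, (mo x n : ℂ) * ee (n * t)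

/-- the growth exponent of the sup norm over the set `S` of frequencies is at most `a` -/
def Bnd (S : Set ℝ) (x : ℕ → ℝ) (a : ℝ) : Prop :=
  ∀ ε : ℝ, 0 < ε → ∃ C : ℝ, ∀ (R : ℕ), ∀ t ∈ S, ‖F x R t‖ ≤ C * (R : ℝ) ^ (a + ε)

/-- the exponent of convergence of the set of the primes with `E p` is at most `a` -/
def Kap (E : ℕ → Prop) (a : ℝ) : Prop :=
  ∀ ε : ℝ, 0 < ε → Summable (fun p : Nat.Primes => open Classical in
    if E p then ((p : ℕ) : ℝ) ^ (-(a + ε)) else 0)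

/-- `∑_p x p p ^ (-σ)` -/
noncomputable def T (x : ℕ → ℝ) (σ : ℝ) : ℝ := ∑' p : Nat.Primes, x p * ((p : ℕ) : ℝ) ^ (-σ)

/-- `∑_p x p p ^ (-σ)` is not bounded below as `σ → 1+` -/
def Neg (x : ℕ → ℝ) : Prop := ∀ C σ₀ : ℝ, 1 < σ₀ → ∃ σ : ℝ, 1 < σ ∧ σ < σ₀ ∧ T x σ < C

/-- the convolution of `mo x` and `1` -/
noncomputable def hh (x : ℕ → ℝ) (n : ℕ) : ℝ := ∑ d ∈ n.divisors, mo x d

end Pool.Agent.T2H31.PX
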