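import Pool.Agent.T2H31.PX.Defs

/-! # Perturbations of the Moebius function and exponential sums: the statements (packages)

Hand-in for `MP_b6b996_nt` (sup norm of the Moebius exponential sum). THEOREM. Let `S` be a nonempty set of frequencies,
closed under multiplication by natural numbers (all of `ℝ`, or `{0}`, ...), and `x` signs such that `∑ x p p ^ (-σ)` is not
bounded below as `σ → 1+`. For `0 ≤ a < 1` the exponent of `mo x` is `≤ a` if and only if the exponent of `μ` is `≤ a` and the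
exponent of convergence of `{p : x p = 1}` is `≤ a`. So the exponent is `max (θ, κ)`. Random noise: `x p = - X p` with
`P (X p = -1) = δ p ≤ 1/2 - η`: almost surely the exponent is `max (θ, κ(δ))`; for `δ = 1/2` it is `1/2`. -/

set_option autoImplicit false

namespace Pool.Agent.T2H31.PX

open MeasureTheory ProbabilityTheory Finset Filter Topology Pool.Agent.T2H31.RC

/-- STB. Stability. Proof: `mo x' = mo x * g` (Dirichlet convolution) with the multiplicative `g`, `g (p ^ k) = 0` (`k ≥ 1`)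
if `x p = x' p`, `g (p ^ k) = 2` if `x p = -1`, `x' p = 1`, and `g (p ^ k) = 2 (-1) ^ k` if `x p = 1`, `x' p = -1`
(`(1 + x' z) / (1 + x z)`). So `F x' R t = ∑_{m ≤ R} g m F x (R / m) (m t)`, `m t ∈ S`, and for `σ = a + ε` this is at most
`C R ^ σ ∑ |g m| m ^ (-σ)`, which converges: the partial sums are at most
`∏_{p ∈ E, p ≤ N} (1 + 2 / (p ^ σ - 1)) ≤ exp (C' ∑_{p ∈ E} p ^ (-σ))`, `E = {x ≠ x'}`. (Alternatively avoid the existence of
`g` by defining it as the product over `n.factorization` and checking `mo x' = mo x * g` at prime powers: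
`ArithmeticFunction.IsMultiplicative.eq_iff_eq_on_prime_powers`.) -/
def P_STB : Prop :=
  ∀ S : Set ℝ, (∀ t ∈ S, ∀ m : ℕ, (m : ℝ) * t ∈ S) → ∀ x x' : ℕ → ℝ, IsSign x → IsSign x' → ∀ a : ℝ, 0 ≤ a →
    Kap (fun p => x p ≠ x' p) a → Bnd S x a → Bnd S x' a

/-- ANA. Partial summation: `D s = s ∫_1^∞ (∑_{n ≤ u} f n) u ^ (-s-1) du` is holomorphic for `Re s > a`; for `Re s > 1` it is the
Dirichlet series (Mathlib: `LSeries_eq_mul_integral'`). -/
def P_ANA : Prop :=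
  ∀ (f : ℕ → ℝ) (a C : ℝ), 0 ≤ a → (∀ n, |f n| ≤ 1) → (∀ R : ℕ, |∑ n ∈ Icc 1 R, f n| ≤ C * (R : ℝ) ^ a) →
    ∃ D : ℂ → ℂ, DifferentiableOn ℂ D {s | a < s.re} ∧
      ∀ s : ℂ, 1 < s.re → LSeries (fun n => (f n : ℂ)) s = D s

/-- LAN. Landau's theorem on Dirichlet series with nonnegative coefficients. Proof: Taylor expansion of `G` at `2`: the disc of
radius `2 - σ'` around `2` is in the half plane (`a < σ' < σ`), so `G (σ) = ∑_k (σ - 2) ^ k / k! G^(k)(2)` converges absolutely,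
and `(-1) ^ k G^(k)(2) = ∑_n h n (log n) ^ k n ^ (-2)` (Mathlib: `LSeries_iteratedDeriv`,
`Mathlib/NumberTheory/LSeries/Deriv.lean`), all terms are nonnegative, the sums may be interchanged (work in `ENNReal`):
`∑_n h n n ^ (-2) exp ((2 - σ) log n)` converges. -/
def P_LAN : Prop :=
  ∀ h : ℕ → ℝ, (∀ n, 0 ≤ h n) → ∀ (a : ℝ) (G : ℂ → ℂ), 0 ≤ a → a < 1 → DifferentiableOn ℂ G {s | a < s.re} →
    (∀ s : ℂ, 1 < s.re → LSeriesSummable (fun n => (h n : ℂ)) s ∧ LSeries (fun n => (h n : ℂ)) s = G s) →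
    ∀ σ : ℝ, a < σ → Summable (fun n : ℕ => h n / (n : ℝ) ^ σ)

/-- EUL. Euler product (upper bound). Proof: for `σ > 1` the series is `∏_p (1 + x p p ^ (-σ))` and
`1 + u ≤ exp u`; so even `C = 1`. (Mathlib: `EulerProduct.eulerProduct_hasProd` or the partial products over smooth numbers.) -/
def P_EUL : Prop :=
  ∃ C : ℝ, ∀ x : ℕ → ℝ, IsSign x → ∀ σ : ℝ, 1 < σ →
    ‖LSeries (fun n => (mo x n : ℂ)) (σ : ℂ)‖ ≤ C * Real.exp (T x σ)

/-- CNV. The convolution with `1`. Proof: `hh x n = ∏_{p ∣ n} (1 + x p) ≥ 0`; `LSeries_convolution`,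
`LSeries_one_eq_riemannZeta`, `|mo x n| ≤ 1`. -/
def P_CNV : Prop :=
  ∀ x : ℕ → ℝ, IsSign x → (∀ n, 0 ≤ hh x n) ∧ (∀ p : ℕ, p.Prime → hh x p = 1 + x p) ∧
    ∀ s : ℂ, 1 < s.re → LSeriesSummable (fun n => (hh x n : ℂ)) s ∧
      LSeries (fun n => (hh x n : ℂ)) s = riemannZeta s * LSeries (fun n => (mo x n : ℂ)) s

/-- NEC (from ANA, LAN, EUL, CNV). Proof: let `a < a' < 1` and let `D` be as in ANA for `mo x` and `a'`. By EUL and the
hypothesis there are `σ → 1+` with `D σ → 0`, so `D 1 = 0` and `D s = (s - 1) K s` with `K` holomorphic for `Re s > a'`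
(`dslope`). `G s = ((s - 1) ζ(s)) K s` is holomorphic for `Re s > a'` and equal to the Dirichlet series of `hh x` for `Re s > 1`.
By LAN `∑ hh x n n ^ (-σ)` converges for `σ > a'`, in particular the sum over the primes with `x p = 1`, where `hh x p = 2`. -/
def P_NEC : Prop :=
  ∀ x : ℕ → ℝ, IsSign x → Neg x → ∀ a : ℝ, 0 ≤ a → a < 1 →
    (∀ ε : ℝ, 0 < ε → ∃ C : ℝ, ∀ R : ℕ, |∑ n ∈ Icc 1 R, mo x n| ≤ C * (R : ℝ) ^ (a + ε)) →
    Kap (fun p => x p = 1) a

/-- RND. Proof: the expectation of `T (- X) σ` is `- ∑ (1 - 2 δ p) p ^ (-σ) ≤ - 2 η ∑ p ^ (-σ) → - ∞` (`σ → 1+`) and the variance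
is at most `∑ p ^ (-2)`; Chebyshev's inequality for a sequence `σ_j → 1+` with expectation `≤ - j ^ 2` (or: the probability that
`T (- X) σ_j ≥ C` tends to `0` for every `C`, which is enough). -/
def P_RND : Prop :=
  ∀ (Ω : Type) [MeasurableSpace Ω] (P : Measure Ω) (δ : ℕ → ℝ) (X : ℕ → Ω → ℝ), Noise P δ X → ∀ η : ℝ, 0 < η →
    (∀ p, 0 ≤ δ p ∧ δ p ≤ 1 / 2 - η) → ∀ᵐ ω ∂P, Neg (fun p => - X p ω)

/-- KAP. The exponent of convergence of the perturbed primes. Proof: for fixed `σ > 0` the sum over `X p = -1` of `p ^ (-σ)`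
converges almost surely if `∑ δ p p ^ (-σ) < ∞` (the expectation is finite; `Pool.Agent.T2H31.RC.wsum` in
`RC/Asm2.lean`) and diverges almost surely if `∑ δ p p ^ (-σ) = ∞` (the partial sums have expectation `m → ∞` and variance
`≤ m`; Chebyshev). Both sides are monotone in `a + ε`, so countably many `σ` are enough. -/
def P_KAP : Prop :=
  ∀ (Ω : Type) [MeasurableSpace Ω] (P : Measure Ω) (δ : ℕ → ℝ) (X : ℕ → Ω → ℝ), Noise P δ X →
    (∀ p, 0 ≤ δ p ∧ δ p ≤ 1) → ∀ᵐ ω ∂P, ∀ a : ℝ, 0 ≤ a →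
      (Kap (fun p => X p ω = -1) a ↔
        ∀ ε : ℝ, 0 < ε → Summable (fun p : Nat.Primes => δ p * ((p : ℕ) : ℝ) ^ (-(a + ε))))

/-- FAI (from `Pool.Agent.T2H31.RC.P_FAIRM`, proved in `RC/T_FAIRM.lean`). Fair signs: take `W N = {1}`, `k = 1`,
`a = 1`, `B = {0}`, `D = ∅`, `Q = t X` and `ε = 1 / (m + 1)`; for the finitely many small `R` the sum is at most `R`. -/
def P_FAI : Prop :=
  ∀ (Ω : Type) [MeasurableSpace Ω] (P : Measure Ω) (X : ℕ → Ω → ℝ), Noise P (fun _ => 1 / 2) X →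
    ∀ᵐ ω ∂P, Bnd Set.univ (fun p => X p ω) (1 / 2)

end Pool.Agent.T2H31.PX
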